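import Pool.Agent.DZ17.AvgA

/-! AvgB shadow (helper17). -/

namespace Pool.Agent.DZ17.S17

open Pool.Agent.DZ17

theorem ind_nonneg (U : Finset ℕ → Prop) (S : Finset ℕ) : 0 ≤ ind U S := by
  unfold ind
  split_ifs <;> norm_num

theorem key (X : Finset ℕ) (h : ℕ) (g : Finset ℕ → ℝ) :
    ∑ H ∈ X.powersetCard h, ∑ S ∈ (X \ H).powerset, g (H ∪ S) =
      ∑ B ∈ X.powerset, (B.card.choose h : ℝ) * g B := by
  have e1 : ∑ B ∈ X.powerset, (B.card.choose h : ℝ) * g B =
      ∑ B ∈ X.powerset, ∑ _H ∈ B.powersetCard h, g B := by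
    refine Finset.sum_congr rfl fun B _ => ?_
    rw [Finset.sum_const, Finset.card_powersetCard, nsmul_eq_mul]
  rw [e1, Finset.sum_sigma', Finset.sum_sigma']
  refine Finset.sum_nbij' (fun p => ⟨p.1 ∪ p.2, p.1⟩) (fun p => ⟨p.2, p.1 \ p.2⟩) ?_ ?_ ?_ ?_ ?_
  · rintro ⟨H, S⟩ hp
    simp only [Finset.mem_sigma, Finset.mem_powersetCard, Finset.mem_powerset] at hp ⊢
    obtain ⟨⟨h1, h2⟩, h3⟩ := hp
    exact ⟨Finset.union_subset h1 (h3.trans Finset.sdiff_subset), Finset.subset_union_left, h2⟩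
  · rintro ⟨B, H⟩ hp
    simp only [Finset.mem_sigma, Finset.mem_powersetCard, Finset.mem_powerset] at hp ⊢
    obtain ⟨h1, h2, h3⟩ := hp
    exact ⟨⟨h2.trans h1, h3⟩, Finset.sdiff_subset_sdiff h1 (Finset.Subset.refl H)⟩
  · rintro ⟨H, S⟩ hp
    simp only [Finset.mem_sigma, Finset.mem_powersetCard, Finset.mem_powerset] at hp
    obtain ⟨⟨h1, h2⟩, h3⟩ := hp
    have : (H ∪ S) \ H = S := by
      rw [Finset.union_sdiff_left]
      exact Finset.sdiff_eq_self_of_disjoint
        (Finset.disjoint_of_subset_left h3 Finset.sdiff_disjoint)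
    simp only [this]
  · rintro ⟨B, H⟩ hp
    simp only [Finset.mem_sigma, Finset.mem_powersetCard, Finset.mem_powerset] at hp
    obtain ⟨h1, h2, h3⟩ := hp
    simp only [Finset.union_sdiff_of_subset h2]
  · rintro ⟨H, S⟩ _
    rfl

theorem card_good (U : Finset ℕ → Prop) [DecidablePred U] (s : Finset (Finset ℕ)) :
    ∑ B ∈ s, ind U B = ((s.filter U).card : ℝ) := by
  rw [Finset.card_filter]
  push_cast
  refine Finset.sum_congr rfl fun B _ => ?_
  unfold ind
  congr

open Classical in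
theorem exH (P : Finset ℕ → Prop) (X : Finset ℕ) (k : ℕ) (d : ℝ) (hk : k ≤ X.card)
    (hn : X.card ≤ 2 * k)
    (h : d * (X.card.choose k : ℝ) ≤ (((X.powersetCard k).filter P).card : ℝ)) :
    ∃ H ⊆ X, H.card = 2 * k - X.card ∧
      d / 2 ≤ mu (X \ H) (fun S => ∃ A ⊆ H ∪ S, A.card = k ∧ P A) := by
  set n := X.card with hndef
  set h' := 2 * k - n with hh'
  have hh'n : h' ≤ n := by omega
  set good : Finset ℕ → Prop := fun B => ∃ A ⊆ B, A.card = k ∧ P A with hgood
  rcases le_or_gt d 0 with hd0 | hd0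
  · obtain ⟨H, hH1, hH2⟩ := Finset.exists_subset_card_eq (s := X) (n := h') hh'n
    refine ⟨H, hH1, hH2, ?_⟩
    have : 0 ≤ mu (X \ H) (fun S => ∃ A ⊆ H ∪ S, A.card = k ∧ P A) :=
      ex_nonneg _ fun S _ => ind_nonneg _ S
    linarith
  by_contra hcon
  push Not at hcon
  have hlt : ∀ H ∈ X.powersetCard h', ∑ S ∈ (X \ H).powerset, ind good (H ∪ S) <
      d / 2 * 2 ^ (2 * (n - k)) := by
    intro H hH
    rw [Finset.mem_powersetCard] at hH
    have h1 := hcon H hH.1 hH.2
    have hc : (X \ H).card = 2 * (n - k) := by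
      rw [Finset.card_sdiff_of_subset hH.1, hH.2]; omega
    unfold mu ex at h1
    rw [hc, div_lt_iff₀ (by positivity)] at h1
    exact h1
  have hpos : 0 < (X.powersetCard h').card := by
    rw [Finset.card_powersetCard]; exact Nat.choose_pos hh'n
  have hsum : ∑ H ∈ X.powersetCard h', ∑ S ∈ (X \ H).powerset, ind good (H ∪ S) <
      (n.choose h' : ℝ) * (d / 2 * 2 ^ (2 * (n - k))) := by
    have h1 := Finset.sum_lt_sum_of_nonempty (Finset.card_pos.1 hpos) hlt
    rw [Finset.sum_const, Finset.card_powersetCard, nsmul_eq_mul] at h1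
    exact h1
  rw [key, Finset.sum_powerset] at hsum
  have hm : ∀ m ∈ Finset.Icc k n, (n.choose h' : ℝ) * d * ((2 * (n - k)).choose (m - h') : ℝ) ≤
      ∑ B ∈ Finset.powersetCard m X, (B.card.choose h' : ℝ) * ind good B := by
    intro m hm
    rw [Finset.mem_Icc] at hm
    have h1 : ∑ B ∈ Finset.powersetCard m X, (B.card.choose h' : ℝ) * ind good B =
        (m.choose h' : ℝ) * (((X.powersetCard m).filter good).card : ℝ) := by
      rw [← card_good, Finset.mul_sum]
      refine Finset.sum_congr rfl fun B hB => ?_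
      rw [(Finset.mem_powersetCard.1 hB).2]
    rw [h1]
    have h2 := upper_shadow P X k m d hm.1 hm.2 h
    have h3 : n.choose m * m.choose h' = n.choose h' * (n - h').choose (m - h') :=
      Nat.choose_mul (by omega)
    have h4 : n - h' = 2 * (n - k) := by omega
    rw [h4] at h3
    have h5 : (n.choose m : ℝ) * (m.choose h' : ℝ) =
        (n.choose h' : ℝ) * ((2 * (n - k)).choose (m - h') : ℝ) := by exact_mod_cast h3
    calc (n.choose h' : ℝ) * d * ((2 * (n - k)).choose (m - h') : ℝ)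
        = (m.choose h' : ℝ) * (d * (n.choose m : ℝ)) := by
          have : (n.choose h' : ℝ) * d * ((2 * (n - k)).choose (m - h') : ℝ) =
            d * ((n.choose h' : ℝ) * ((2 * (n - k)).choose (m - h') : ℝ)) := by ring
          rw [this, ← h5]; ring
      _ ≤ _ := mul_le_mul_of_nonneg_left h2 (Nat.cast_nonneg _)
  have hge : (n.choose h' : ℝ) * (d / 2 * 2 ^ (2 * (n - k))) ≤
      ∑ m ∈ Finset.range (X.card + 1), ∑ B ∈ Finset.powersetCard m X,
        (B.card.choose h' : ℝ) * ind good B := by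
    have hsubset : Finset.Icc k n ⊆ Finset.range (X.card + 1) := by
      intro m hm
      rw [Finset.mem_Icc] at hm
      rw [Finset.mem_range]; omega
    have h1 := Finset.sum_le_sum_of_subset_of_nonneg (f := fun m =>
      ∑ B ∈ Finset.powersetCard m X, (B.card.choose h' : ℝ) * ind good B) hsubset
      (fun m _ _ => Finset.sum_nonneg fun B _ => mul_nonneg (Nat.cast_nonneg _) (ind_nonneg _ _))
    refine le_trans ?_ h1
    refine le_trans ?_ (Finset.sum_le_sum hm)
    rw [← Finset.mul_sum]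
    have h2 : ∑ m ∈ Finset.Icc k n, ((2 * (n - k)).choose (m - h') : ℝ) =
        ∑ j ∈ Finset.Icc (n - k) (2 * (n - k)), ((2 * (n - k)).choose j : ℝ) := by
      refine Finset.sum_nbij' (fun m => m - h') (fun j => j + h') ?_ ?_ ?_ ?_ ?_
      · intro m hm
        rw [Finset.mem_Icc] at hm ⊢; omega
      · intro j hj
        rw [Finset.mem_Icc] at hj ⊢; omega
      · intro m hm
        rw [Finset.mem_Icc] at hm
        show m - h' + h' = m
        omega
      · intro j _
        show j + h' - h' = j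
        omega
      · intro m _
        rfl
    rw [h2]
    have h3 := half (n - k)
    have h4 : 0 ≤ (n.choose h' : ℝ) * d := by positivity
    calc (n.choose h' : ℝ) * (d / 2 * 2 ^ (2 * (n - k)))
        = (n.choose h' : ℝ) * d * (2 ^ (2 * (n - k)) / 2) := by ring
      _ ≤ _ := mul_le_mul_of_nonneg_left h3 h4
  exact absurd hsum (not_lt.2 hge)

end Pool.Agent.DZ17.S17
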