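import Pool.Agent.DZ17.Def

/-! Mu: measure of a set of subsets. -/

namespace Pool.Agent.DZ17

open Classical in
/-- indicator -/
noncomputable def ind (U : Finset ℕ → Prop) (S : Finset ℕ) : ℝ := if U S then 1 else 0

/-- proportion of the subsets of `Y` with property `U` -/
noncomputable def mu (Y : Finset ℕ) (U : Finset ℕ → Prop) : ℝ := ex Y (ind U)

end Pool.Agent.DZ17
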