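import Pool.Agent.DZ17.AvgBS17

/-! AvgB. n = card X, k <= n <= 2k, h = 2k - n, so n - h = 2(n-k), k - h = n - k. good B = B contains
a k-set A with P A. Proof in AvgBS17. -/

namespace Pool.Agent.DZ17

open Classical in
theorem exH (P : Finset ℕ → Prop) (X : Finset ℕ) (k : ℕ) (d : ℝ) (hk : k ≤ X.card)
    (hn : X.card ≤ 2 * k)
    (h : d * (X.card.choose k : ℝ) ≤ (((X.powersetCard k).filter P).card : ℝ)) :
    ∃ H ⊆ X, H.card = 2 * k - X.card ∧
      d / 2 ≤ mu (X \ H) (fun S => ∃ A ⊆ H ∪ S, A.card = k ∧ P A) :=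
  S17.exH P X k d hk hn h

end Pool.Agent.DZ17
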