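import Pool.Agent.DZ17.Four

/-! DZ17/CombS2 (helper2): shadow of comb. -/

namespace Pool.Agent.DZ17.CombS2

open Pool.Agent.DZ17

set_option maxRecDepth 100000 in
theorem check : ∀ (xS xY x1 x2 x3 yS yY y1 y2 y3 : Bool), ((!xS || xY) && (!yS || yY) &&
    !(x1 && x2 && x3) && !(y1 && y2 && y3) && (xS || yS) &&
    ((xS ^^ (xY && x1)) || (yS ^^ (yY && y1))) &&
    ((xS ^^ (xY && !(x1 && !x2))) || (yS ^^ (yY && !(y1 && !y2)))) &&
    ((xS ^^ (xY && !(x1 && x2))) || (yS ^^ (yY && !(y1 && y2)))) &&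
    (x1 || y1) && (x2 || y2) && (x3 || y3)) = false := by
  decide

theorem mem_sd (S Y D1 D2 : Finset ℕ) (z : ℕ) :
    (z ∈ symmDiff S (Y.filter (fun w => w ∈ D1)) ↔
      (decide (z ∈ S) ^^ (decide (z ∈ Y) && decide (z ∈ D1))) = true) ∧
    (z ∈ symmDiff S (Y.filter (fun w => ¬ (w ∈ D1 ∧ w ∉ D2))) ↔
      (decide (z ∈ S) ^^ (decide (z ∈ Y) && !(decide (z ∈ D1) && !decide (z ∈ D2)))) = true) ∧
    (z ∈ symmDiff S (Y.filter (fun w => ¬ (w ∈ D1 ∧ w ∈ D2))) ↔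
      (decide (z ∈ S) ^^ (decide (z ∈ Y) && !(decide (z ∈ D1) && decide (z ∈ D2)))) = true) := by
  refine ⟨?_, ?_, ?_⟩ <;> rw [Finset.mem_symmDiff, Finset.mem_filter] <;>
    by_cases a : z ∈ S <;> by_cases b : z ∈ Y <;> by_cases c : z ∈ D1 <;>
    by_cases d : z ∈ D2 <;> simp [a, b, c, d]

theorem comb (F : Set (Finset ℕ))
    (hF : ∀ G : Finset (Finset ℕ), (↑G : Set (Finset ℕ)) ⊆ F → G.card ≤ 7 →
      ∃ x y : ℕ, ∀ A ∈ G, x ∈ A ∨ y ∈ A)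
    (Y H Z : Finset ℕ) (h : 3 / 4 < mu Y (fun S => ∃ A ∈ F, A ⊆ H ∪ (S ∪ Z)))
    (D1 D2 D3 : Finset ℕ) (m1 : D1 ∈ F) (m2 : D2 ∈ F) (m3 : D3 ∈ F)
    (d1 : ∀ x ∈ D1, x ∉ H ∪ Z) (d2 : ∀ x ∈ D2, x ∉ H ∪ Z) (d3 : ∀ x ∈ D3, x ∉ H ∪ Z) :
    ∃ x, x ∈ D1 ∧ x ∈ D2 ∧ x ∈ D3 := by
  by_contra hno
  push Not at hno
  have hno' : ∀ x, ¬ (x ∈ D1 ∧ x ∈ D2 ∧ x ∈ D3) := fun x hx => hno x hx.1 hx.2.1 hx.2.2
  obtain ⟨S, hS, ⟨M0, f0, u0⟩, ⟨M1, f1, u1⟩, ⟨M2, f2, u2⟩, M3, f3, u3⟩ := four Y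
    (fun S => ∃ A ∈ F, A ⊆ H ∪ (S ∪ Z)) (Y.filter (fun w => w ∈ D1))
    (Y.filter (fun w => ¬ (w ∈ D1 ∧ w ∉ D2))) (Y.filter (fun w => ¬ (w ∈ D1 ∧ w ∈ D2)))
    (Finset.filter_subset _ _) (Finset.filter_subset _ _) (Finset.filter_subset _ _) h
  obtain ⟨x, y, hxy⟩ := hF {M0, M1, M2, M3, D1, D2, D3} (by
    intro A hA
    simp only [Finset.coe_insert, Finset.coe_singleton, Set.mem_insert_iff,
      Set.mem_singleton_iff] at hA
    rcases hA with rfl | rfl | rfl | rfl | rfl | rfl | rfl <;> assumption)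
    ((Finset.card_insert_le _ _).trans (Nat.succ_le_succ Finset.card_le_six))
  have g0 := hxy M0 (by simp)
  have g1 := hxy M1 (by simp)
  have g2 := hxy M2 (by simp)
  have g3 := hxy M3 (by simp)
  have g4 := hxy D1 (by simp)
  have g5 := hxy D2 (by simp)
  have g6 := hxy D3 (by simp)
  have hx : x ∉ H ∪ Z := fun hx => hno' y
    ⟨g4.resolve_left fun h' => d1 x h' hx, g5.resolve_left fun h' => d2 x h' hx,
      g6.resolve_left fun h' => d3 x h' hx⟩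
  have hy : y ∉ H ∪ Z := fun hy => hno' x
    ⟨g4.resolve_right fun h' => d1 y h' hy, g5.resolve_right fun h' => d2 y h' hy,
      g6.resolve_right fun h' => d3 y h' hy⟩
  have red : ∀ (z : ℕ) (M T : Finset ℕ), z ∉ H ∪ Z → M ⊆ H ∪ (T ∪ Z) → z ∈ M → z ∈ T := by
    intro z M T hz hM hzM
    have h1 := hM hzM
    rw [Finset.mem_union, Finset.mem_union] at h1
    rw [Finset.mem_union] at hz
    tauto
  obtain ⟨ax1, ax2, ax3⟩ := mem_sd S Y D1 D2 x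
  obtain ⟨ay1, ay2, ay3⟩ := mem_sd S Y D1 D2 y
  have hc := check (decide (x ∈ S)) (decide (x ∈ Y)) (decide (x ∈ D1)) (decide (x ∈ D2))
    (decide (x ∈ D3)) (decide (y ∈ S)) (decide (y ∈ Y)) (decide (y ∈ D1)) (decide (y ∈ D2))
    (decide (y ∈ D3))
  rw [Bool.eq_false_iff] at hc
  apply hc
  have k0 : (decide (x ∈ S) || decide (y ∈ S)) = true := by
    rw [Bool.or_eq_true]
    exact g0.imp (fun h1 => decide_eq_true (red x M0 S hx u0 h1))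
      (fun h1 => decide_eq_true (red y M0 S hy u0 h1))
  have k1 := (Bool.or_eq_true _ _).symm ▸ (g1.imp (fun h1 => ax1.1 (red x M1 _ hx u1 h1))
    (fun h1 => ay1.1 (red y M1 _ hy u1 h1)))
  have k2 := (Bool.or_eq_true _ _).symm ▸ (g2.imp (fun h1 => ax2.1 (red x M2 _ hx u2 h1))
    (fun h1 => ay2.1 (red y M2 _ hy u2 h1)))
  have k3 := (Bool.or_eq_true _ _).symm ▸ (g3.imp (fun h1 => ax3.1 (red x M3 _ hx u3 h1))
    (fun h1 => ay3.1 (red y M3 _ hy u3 h1)))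
  have k4 : (decide (x ∈ D1) || decide (y ∈ D1)) = true := by
    rw [Bool.or_eq_true]
    exact g4.imp decide_eq_true decide_eq_true
  have k5 : (decide (x ∈ D2) || decide (y ∈ D2)) = true := by
    rw [Bool.or_eq_true]
    exact g5.imp decide_eq_true decide_eq_true
  have k6 : (decide (x ∈ D3) || decide (y ∈ D3)) = true := by
    rw [Bool.or_eq_true]
    exact g6.imp decide_eq_true decide_eq_true
  have k7 : (!decide (x ∈ S) || decide (x ∈ Y)) = true := by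
    by_cases hxS : x ∈ S
    · simp [hxS, hS hxS]
    · simp [hxS]
  have k8 : (!decide (y ∈ S) || decide (y ∈ Y)) = true := by
    by_cases hyS : y ∈ S
    · simp [hyS, hS hyS]
    · simp [hyS]
  have k9 : (!(decide (x ∈ D1) && decide (x ∈ D2) && decide (x ∈ D3))) = true := by
    have := hno' x
    by_cases a : x ∈ D1 <;> by_cases b : x ∈ D2 <;> by_cases c : x ∈ D3 <;> simp [a, b, c]
    exact this ⟨a, b, c⟩
  have k10 : (!(decide (y ∈ D1) && decide (y ∈ D2) && decide (y ∈ D3))) = true := by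
    have := hno' y
    by_cases a : y ∈ D1 <;> by_cases b : y ∈ D2 <;> by_cases c : y ∈ D3 <;> simp [a, b, c]
    exact this ⟨a, b, c⟩
  rw [k7, k8, k9, k10, k0, k1, k2, k3, k4, k5, k6]
  rfl

end Pool.Agent.DZ17.CombS2
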