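import Pool.Agent.DZ17.Four
import Pool.Agent.DZ17.CombS2

/-! Comb. Y finite, H, Z arbitrary, more than 3/4 of the subsets S of Y are such that H + S + Z
contains a member of F. Let D1, D2, D3 in F miss H + Z and have no common point. For y in Y choose
c y in {1,2,3} with y not in D_(c y). C1 = {y in Y : c y <> 1}, C2, C3 likewise; four gives S and
members M0 in H + S + Z, M1 in H + (S xor C1) + Z, M2 .., M3 .. . hF for {M0,M1,M2,M3,D1,D2,D3}
(at most 7) gives x, y. If x is in H + Z then x is in no D_j, so y is in all three; the same for y.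
So x, y are not in H + Z: x in M0 implies x in S etc. If x is not in Y then x is in no M_l (S and the
C's are subsets of Y) and y would be in all four sets S, S xor C1, S xor C2, S xor C3: y in S, y not
in C1, so c y = 1, y not in C2, so c y = 2: contradiction. So x, y in Y; a point x of Y with c x = 1
is in S and S xor C1 and in no other, or in S xor C2 and S xor C3 and in no other; similarly c x = 2,
3. All four are covered, so c x = c y = j (different classes: some set is missed: finite check) and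
D_j contains neither x nor y: contradiction. -/

namespace Pool.Agent.DZ17

theorem comb (F : Set (Finset ℕ))
    (hF : ∀ G : Finset (Finset ℕ), (↑G : Set (Finset ℕ)) ⊆ F → G.card ≤ 7 →
      ∃ x y : ℕ, ∀ A ∈ G, x ∈ A ∨ y ∈ A)
    (Y H Z : Finset ℕ) (h : 3 / 4 < mu Y (fun S => ∃ A ∈ F, A ⊆ H ∪ (S ∪ Z)))
    (D1 D2 D3 : Finset ℕ) (m1 : D1 ∈ F) (m2 : D2 ∈ F) (m3 : D3 ∈ F)
    (d1 : ∀ x ∈ D1, x ∉ H ∪ Z) (d2 : ∀ x ∈ D2, x ∉ H ∪ Z) (d3 : ∀ x ∈ D3, x ∉ H ∪ Z) :
    ∃ x, x ∈ D1 ∧ x ∈ D2 ∧ x ∈ D3 :=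
  CombS2.comb F hF Y H Z h D1 D2 D3 m1 m2 m3 d1 d2 d3

end Pool.Agent.DZ17
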