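import Pool.Agent.DZ17.Mu

/-! Red. n = card X >= 2k. Sum over the 2k-subsets X' of X of #{A in X', card A = k, P A} =
#{A in X} C(n-k,k) >= d C(n,k) C(n-k,k) = d C(n,2k) C(2k,k); there are C(n,2k) sets X'. -/

namespace Pool.Agent.DZ17

open Classical in
theorem red (P : Finset ℕ → Prop) (X : Finset ℕ) (k : ℕ) (d : ℝ) (hn : 2 * k ≤ X.card)
    (h : d * (X.card.choose k : ℝ) ≤ (((X.powersetCard k).filter P).card : ℝ)) :
    ∃ X' ⊆ X, X'.card = 2 * k ∧
      d * ((2 * k).choose k : ℝ) ≤ (((X'.powersetCard k).filter P).card : ℝ) := by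
  have hk : k ≤ 2 * k := by omega
  have hcount : ∀ A ∈ (X.powersetCard k).filter P,
      ((X.powersetCard (2 * k)).filter (fun X' => A ⊆ X')).card = (X.card - k).choose k := by
    intro A hA
    have hA1 := Finset.mem_powersetCard.1 (Finset.mem_filter.1 hA).1
    have h1 : ((X.powersetCard (2 * k)).filter (fun X' => A ⊆ X')).card =
        ((X \ A).powersetCard k).card := by
      refine Finset.card_nbij' (fun X' => X' \ A) (fun B => B ∪ A) ?_ ?_ ?_ ?_
      · intro X' hX'
        rw [Finset.mem_coe, Finset.mem_filter, Finset.mem_powersetCard] at hX'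
        rw [Finset.mem_coe, Finset.mem_powersetCard]
        refine ⟨Finset.sdiff_subset_sdiff hX'.1.1 (Finset.Subset.refl A), ?_⟩
        rw [Finset.card_sdiff_of_subset hX'.2, hX'.1.2, hA1.2]
        omega
      · intro B hB
        rw [Finset.mem_coe, Finset.mem_powersetCard] at hB
        rw [Finset.mem_coe, Finset.mem_filter, Finset.mem_powersetCard]
        have hdis : Disjoint B A :=
          Finset.disjoint_left.2 fun x hx hxA => (Finset.mem_sdiff.1 (hB.1 hx)).2 hxA
        refine ⟨⟨Finset.union_subset (fun x hx => (Finset.mem_sdiff.1 (hB.1 hx)).1) hA1.1, ?_⟩,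
          Finset.subset_union_right⟩
        rw [Finset.card_union_of_disjoint hdis, hB.2, hA1.2]
        omega
      · intro X' hX'
        rw [Finset.mem_coe, Finset.mem_filter, Finset.mem_powersetCard] at hX'
        exact Finset.sdiff_union_of_subset hX'.2
      · intro B hB
        rw [Finset.mem_coe, Finset.mem_powersetCard] at hB
        have hdis : Disjoint B A :=
          Finset.disjoint_left.2 fun x hx hxA => (Finset.mem_sdiff.1 (hB.1 hx)).2 hxA
        exact Finset.union_sdiff_cancel_right hdis
    rw [h1, Finset.card_powersetCard, Finset.card_sdiff_of_subset hA1.1, hA1.2]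
  have hsum : ∑ X' ∈ X.powersetCard (2 * k), ((X'.powersetCard k).filter P).card =
      ((X.powersetCard k).filter P).card * (X.card - k).choose k := by
    have e1 : ∀ X' ∈ X.powersetCard (2 * k), ((X'.powersetCard k).filter P).card =
        ∑ A ∈ (X.powersetCard k).filter P, if A ⊆ X' then 1 else 0 := by
      intro X' hX'
      have hX1 := (Finset.mem_powersetCard.1 hX').1
      rw [← Finset.card_filter]
      congr 1
      ext A
      simp only [Finset.mem_filter, Finset.mem_powersetCard]
      constructor
      · rintro ⟨⟨h2, h3⟩, h4⟩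
        exact ⟨⟨⟨h2.trans hX1, h3⟩, h4⟩, h2⟩
      · rintro ⟨⟨⟨_, h3⟩, h4⟩, h2⟩
        exact ⟨⟨h2, h3⟩, h4⟩
    rw [Finset.sum_congr rfl e1, Finset.sum_comm]
    have e2 : ∀ A ∈ (X.powersetCard k).filter P,
        (∑ X' ∈ X.powersetCard (2 * k), if A ⊆ X' then 1 else 0) = (X.card - k).choose k := by
      intro A hA
      rw [← Finset.card_filter]
      exact hcount A hA
    rw [Finset.sum_congr rfl e2, Finset.sum_const, smul_eq_mul]
  by_contra hcon
  push Not at hcon
  have hne : (X.powersetCard (2 * k)).Nonempty := Finset.powersetCard_nonempty.2 hn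
  have hlt : ∑ X' ∈ X.powersetCard (2 * k), (((X'.powersetCard k).filter P).card : ℝ) <
      ∑ X' ∈ X.powersetCard (2 * k), d * ((2 * k).choose k : ℝ) :=
    Finset.sum_lt_sum_of_nonempty hne fun X' hX' =>
      hcon X' (Finset.mem_powersetCard.1 hX').1 (Finset.mem_powersetCard.1 hX').2
  rw [← Nat.cast_sum, hsum, Finset.sum_const, Finset.card_powersetCard, nsmul_eq_mul] at hlt
  have hid : X.card.choose (2 * k) * (2 * k).choose k =
      X.card.choose k * (X.card - k).choose k := by
    have h5 := Nat.choose_mul (n := X.card) hk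
    rwa [show 2 * k - k = k by omega] at h5
  have hid' : (X.card.choose (2 * k) : ℝ) * ((2 * k).choose k : ℝ) =
      (X.card.choose k : ℝ) * ((X.card - k).choose k : ℝ) := by exact_mod_cast hid
  have h6 : d * (X.card.choose k : ℝ) * ((X.card - k).choose k : ℝ) ≤
      (((X.powersetCard k).filter P).card : ℝ) * ((X.card - k).choose k : ℝ) :=
    mul_le_mul_of_nonneg_right h (Nat.cast_nonneg _)
  have h7 : (X.card.choose (2 * k) : ℝ) * (d * ((2 * k).choose k : ℝ)) =
      d * (X.card.choose k : ℝ) * ((X.card - k).choose k : ℝ) := by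
    calc (X.card.choose (2 * k) : ℝ) * (d * ((2 * k).choose k : ℝ)) =
          d * ((X.card.choose (2 * k) : ℝ) * ((2 * k).choose k : ℝ)) := by ring
      _ = d * ((X.card.choose k : ℝ) * ((X.card - k).choose k : ℝ)) := by rw [hid']
      _ = _ := by ring
  rw [h7] at hlt
  push_cast at hlt
  linarith

end Pool.Agent.DZ17
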