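import Pool.Agent.DZ17.Greedy
import Pool.Agent.DZ17.Comb
import Pool.Agent.DZ17.AvgB
import Pool.Agent.DZ17.Red

/-! MainS18: the assembly, with `tail` as a hypothesis. -/

namespace Pool.Agent.DZ17

theorem main_S18
    (tail : ∀ (k : ℕ) (F : Set (Finset ℕ)), (∀ A ∈ F, A.card = k) → ∀ W : Finset ℕ,
      (∀ D1 ∈ F, ∀ D2 ∈ F, ∀ D3 ∈ F, (∀ x ∈ D1, x ∉ W) → (∀ x ∈ D2, x ∉ W) →
        (∀ x ∈ D3, x ∉ W) → ∃ x, x ∈ D1 ∧ x ∈ D2 ∧ x ∈ D3) →
      ∃ T : Finset ℕ, 2 * T.card ≤ 2 * W.card + k + 1 ∧ ∀ A ∈ F, ∃ t ∈ T, t ∈ A)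
    (k : ℕ) (F : Set (Finset ℕ)) (hk2 : 2 ≤ k) (hk : ∀ A ∈ F, A.card = k)
    (hF : ∀ G : Finset (Finset ℕ), (↑G : Set (Finset ℕ)) ⊆ F → G.card ≤ 7 →
      ∃ x y : ℕ, ∀ A ∈ G, x ∈ A ∨ y ∈ A)
    (X : Finset ℕ) (δ : ℝ) (hδ : 0 < δ) (hX : 3 * k ≤ 2 * X.card)
    (hd : δ * (X.card.choose k : ℝ) ≤ ({A : Finset ℕ | A ⊆ X ∧ A ∈ F}.ncard : ℝ)) :
    ∃ T : Finset ℕ, (T.card : ℝ) ≤
        max ((k : ℝ) / 2) (5 * k / 2 - X.card) + 96 * k / (δ * Real.log k) + 3 / 2 ∧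
      ∀ A ∈ F, ∃ t ∈ T, t ∈ A := by
  classical
  have hd' : δ * (X.card.choose k : ℝ) ≤
      (((X.powersetCard k).filter (fun A => A ∈ F)).card : ℝ) := by
    have h1 : {A : Finset ℕ | A ⊆ X ∧ A ∈ F} =
        ((X.powersetCard k).filter (fun A => A ∈ F) : Set (Finset ℕ)) := by
      ext A
      simp only [Set.mem_ofPred_eq, Finset.coe_filter, Finset.mem_powersetCard]
      constructor
      · rintro ⟨a, b⟩; exact ⟨⟨a, hk A b⟩, b⟩
      · rintro ⟨⟨a, _⟩, b⟩; exact ⟨a, b⟩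
    rw [h1, Set.ncard_coe_finset] at hd
    exact hd
  obtain ⟨X1, hX1a, hX1b, hX1c, hX1d, hX1e⟩ : ∃ X1 : Finset ℕ, k ≤ X1.card ∧ X1.card ≤ 2 * k ∧
      3 * k ≤ 2 * X1.card ∧
      δ * (X1.card.choose k : ℝ) ≤ (((X1.powersetCard k).filter (fun A => A ∈ F)).card : ℝ) ∧
      (5 * k / 2 - X1.card : ℝ) ≤ max ((k : ℝ) / 2) (5 * k / 2 - X.card) := by
    by_cases h2 : 2 * k ≤ X.card
    · obtain ⟨X', _, h4, h5⟩ := red (fun A => A ∈ F) X k δ h2 hd'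
      refine ⟨X', by omega, by omega, by omega, ?_, ?_⟩
      · rw [h4]; exact h5
      · refine le_trans ?_ (le_max_left _ _)
        rw [h4]
        push_cast
        linarith
    · exact ⟨X, by omega, by omega, hX, hd', le_max_right _ _⟩
  obtain ⟨H, hHX, hHc, hHmu⟩ := exH (fun A => A ∈ F) X1 k δ hX1a hX1b hX1d
  set Y := X1 \ H with hY
  have hYc : Y.card = X1.card - H.card := Finset.card_sdiff_of_subset hHX
  have hYk : k ≤ Y.card := by omega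
  have hY2 : Y.card ≤ 2 * k := by omega
  obtain ⟨Z, hZY, hZc, hZmu⟩ := greedy Y (fun S => ∃ A ⊆ H ∪ S, A.card = k ∧ A ∈ F)
    (fun S T hST => by
      rintro ⟨A, h1, h2, h3⟩
      exact ⟨A, h1.trans (Finset.union_subset_union_right hST), h2, h3⟩)
    (by omega) (δ / 2) (by positivity) hHmu
  have hmu : 3 / 4 < mu Y (fun S => ∃ A ∈ F, A ⊆ H ∪ (S ∪ Z)) := by
    have h1 : (fun S : Finset ℕ => ∃ A ∈ F, A ⊆ H ∪ (S ∪ Z)) =
        (fun S : Finset ℕ => ∃ A ⊆ H ∪ (S ∪ Z), A.card = k ∧ A ∈ F) := by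
      funext S
      apply propext
      constructor
      · rintro ⟨A, a, b⟩; exact ⟨A, b, hk A a, a⟩
      · rintro ⟨A, b, _, a⟩; exact ⟨A, a, b⟩
    rw [h1]
    exact hZmu
  obtain ⟨T, hT1, hT2⟩ := tail k F hk (H ∪ Z) (fun D1 m1 D2 m2 D3 m3 d1 d2 d3 =>
    comb F hF Y H Z hmu D1 D2 D3 m1 m2 m3 d1 d2 d3)
  refine ⟨T, ?_, hT2⟩
  have hW : (H ∪ Z).card ≤ H.card + Z.card := Finset.card_union_le _ _
  have hlogk : 0 < Real.log k := Real.log_pos (by exact_mod_cast hk2)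
  have hlog : Real.log k ≤ Real.log Y.card :=
    Real.log_le_log (by positivity) (by exact_mod_cast hYk)
  have hZ : (Z.card : ℝ) ≤ 96 * k / (δ * Real.log k) + 1 := by
    refine hZc.trans ?_
    have h1 : 24 * (Y.card : ℝ) / (δ / 2 * Real.log Y.card) ≤ 96 * k / (δ * Real.log k) := by
      have h2 : 24 * (Y.card : ℝ) / (δ / 2 * Real.log Y.card) =
          48 * (Y.card : ℝ) / (δ * Real.log Y.card) := by
        have : 0 < Real.log Y.card := lt_of_lt_of_le hlogk hlog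
        field_simp
        ring
      rw [h2]
      have h3 : (Y.card : ℝ) ≤ 2 * k := by exact_mod_cast hY2
      apply div_le_div₀ (by positivity) (by linarith) (by positivity)
      exact mul_le_mul_of_nonneg_left hlog hδ.le
    linarith
  have hHc' : (H.card : ℝ) = 2 * k - X1.card := by
    rw [hHc, Nat.cast_sub hX1b]
    push_cast
    ring
  have h5 : 2 * (T.card : ℝ) ≤ 2 * ((H.card : ℝ) + Z.card) + k + 1 := by
    have h6 : 2 * T.card ≤ 2 * (H.card + Z.card) + k + 1 := by omega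
    exact_mod_cast h6
  rw [hHc'] at h5
  linarith

end Pool.Agent.DZ17
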