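import Mathlib

/-! DZ17/TailS86: tail (helper86). -/

namespace Pool.Agent.DZ17

theorem tail86 (k : ℕ) (F : Set (Finset ℕ)) (hk : ∀ A ∈ F, A.card = k) (W : Finset ℕ)
    (h : ∀ D1 ∈ F, ∀ D2 ∈ F, ∀ D3 ∈ F, (∀ x ∈ D1, x ∉ W) → (∀ x ∈ D2, x ∉ W) →
      (∀ x ∈ D3, x ∉ W) → ∃ x, x ∈ D1 ∧ x ∈ D2 ∧ x ∈ D3) :
    ∃ T : Finset ℕ, 2 * T.card ≤ 2 * W.card + k + 1 ∧ ∀ A ∈ F, ∃ t ∈ T, t ∈ A := by
  by_contra hno
  push Not at hno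
  obtain ⟨D1, hD1, h1⟩ := hno W (by omega)
  have hm1 : ∀ x ∈ D1, x ∉ W := fun x hx hw => h1 x hw hx
  obtain ⟨P, hPD, hP⟩ := Finset.exists_subset_card_eq (s := D1) (n := (k + 1) / 2)
    (by rw [hk D1 hD1]; omega)
  have hP2 : (D1 \ P).card = k - (k + 1) / 2 := by
    rw [Finset.card_sdiff_of_subset hPD, hk D1 hD1, hP]
  obtain ⟨D2, hD2, h2⟩ := hno (W ∪ P) (by
    have := Finset.card_union_le W P
    omega)
  obtain ⟨D3, hD3, h3⟩ := hno (W ∪ (D1 \ P)) (by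
    have := Finset.card_union_le W (D1 \ P)
    omega)
  obtain ⟨x, hx1, hx2, hx3⟩ := h D1 hD1 D2 hD2 D3 hD3 hm1
    (fun x hx hw => h2 x (Finset.mem_union_left _ hw) hx)
    (fun x hx hw => h3 x (Finset.mem_union_left _ hw) hx)
  by_cases hxP : x ∈ P
  · exact h2 x (Finset.mem_union_right _ hxP) hx2
  · exact h3 x (Finset.mem_union_right _ (Finset.mem_sdiff.2 ⟨hx1, hxP⟩)) hx3

end Pool.Agent.DZ17
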