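import Pool.Agent.DZ17.Greedy
import Pool.Agent.DZ17.Comb
import Pool.Agent.DZ17.AvgB
import Pool.Agent.DZ17.Red
import Pool.Agent.DZ17.MainS18
import Pool.Agent.DZ17.TailS86

/-! Main. tail: if any three members of F that miss W have a common point then F has a transversal
with at most card W + ceil(k/2) elements: otherwise take D1 in F missing W, D2 missing W and half of
D1 (ceil(k/2) elements), D3 missing W and the rest of D1.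
main: red if card X >= 2k (X' instead of X); exH; N = card (X - H) = 2(n-k) >= k >= 2 (2n >= 3k);
greedy with d/2: card Z <= 48 N/(d log N) + 1 <= 96 k/(d log k) + 1; comb; tail with W = H + Z. -/

namespace Pool.Agent.DZ17

theorem tail (k : ℕ) (F : Set (Finset ℕ)) (hk : ∀ A ∈ F, A.card = k) (W : Finset ℕ)
    (h : ∀ D1 ∈ F, ∀ D2 ∈ F, ∀ D3 ∈ F, (∀ x ∈ D1, x ∉ W) → (∀ x ∈ D2, x ∉ W) →
      (∀ x ∈ D3, x ∉ W) → ∃ x, x ∈ D1 ∧ x ∈ D2 ∧ x ∈ D3) :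
    ∃ T : Finset ℕ, 2 * T.card ≤ 2 * W.card + k + 1 ∧ ∀ A ∈ F, ∃ t ∈ T, t ∈ A :=
  tail86 k F hk W h

theorem main (k : ℕ) (F : Set (Finset ℕ)) (hk2 : 2 ≤ k) (hk : ∀ A ∈ F, A.card = k)
    (hF : ∀ G : Finset (Finset ℕ), (↑G : Set (Finset ℕ)) ⊆ F → G.card ≤ 7 →
      ∃ x y : ℕ, ∀ A ∈ G, x ∈ A ∨ y ∈ A)
    (X : Finset ℕ) (δ : ℝ) (hδ : 0 < δ) (hX : 3 * k ≤ 2 * X.card)
    (hd : δ * (X.card.choose k : ℝ) ≤ ({A : Finset ℕ | A ⊆ X ∧ A ∈ F}.ncard : ℝ)) :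
    ∃ T : Finset ℕ, (T.card : ℝ) ≤
        max ((k : ℝ) / 2) (5 * k / 2 - X.card) + 96 * k / (δ * Real.log k) + 3 / 2 ∧
      ∀ A ∈ F, ∃ t ∈ T, t ∈ A :=
  main_S18 tail k F hk2 hk hF X δ hδ hX hd

end Pool.Agent.DZ17
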