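import Pool.Agent.DZ17.Greedy
import Pool.Agent.DZ17.Comb
import Pool.Agent.DZ17.AvgB
import Pool.Agent.DZ17.Red
import Pool.Agent.DZ17.Main

/-! MainR: the form with (k+r)-subsets. K = k + r, P B = B contains a member of F. red if
card X > 2K (X' instead of X); exH; N = card (X - H) = 2(n-K) >= K >= 2 (2n >= 3K);
greedy with d/2: card Z <= 48 N/(d log N) + 1 <= 96 K/(d log K) + 1; comb; tail with W = H + Z. -/

namespace Pool.Agent.DZ17

theorem mu_le (Y : Finset ℕ) (U V : Finset ℕ → Prop) (h : ∀ S, U S → V S) : mu Y U ≤ mu Y V := by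
  unfold mu
  apply ex_mono
  intro S _
  unfold ind
  by_cases h1 : U S
  · rw [if_pos h1, if_pos (h S h1)]
  · rw [if_neg h1]
    split_ifs <;> norm_num

open Classical in
theorem mainX (k r : ℕ) (F : Set (Finset ℕ)) (hK : 2 ≤ k + r) (hk : ∀ A ∈ F, A.card = k)
    (hF : ∀ G : Finset (Finset ℕ), (↑G : Set (Finset ℕ)) ⊆ F → G.card ≤ 7 →
      ∃ x y : ℕ, ∀ A ∈ G, x ∈ A ∨ y ∈ A)
    (X : Finset ℕ) (δ : ℝ) (hδ : 0 < δ) (hX : 3 * (k + r) ≤ 2 * X.card)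
    (hX2 : X.card ≤ 2 * (k + r))
    (hd : δ * (X.card.choose (k + r) : ℝ) ≤
      (((X.powersetCard (k + r)).filter (fun B => ∃ A ∈ F, A ⊆ B)).card : ℝ)) :
    ∃ T : Finset ℕ, (T.card : ℝ) ≤
        2 * (k + r) - X.card + k / 2 + 96 * (k + r) / (δ * Real.log (k + r)) + 3 / 2 ∧
      ∀ A ∈ F, ∃ t ∈ T, t ∈ A := by
  obtain ⟨H, hHX, hHc, hmu⟩ := exH (fun B => ∃ A ∈ F, A ⊆ B) X (k + r) δ (by omega) hX2 hd
  set Y := X \ H with hY
  have hYc : Y.card = 2 * (X.card - (k + r)) := by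
    rw [hY, Finset.card_sdiff_of_subset hHX, hHc]; omega
  have hY1 : k + r ≤ Y.card := by omega
  have hY2 : Y.card ≤ 2 * (k + r) := by omega
  obtain ⟨Z, hZ, hZc, hZm⟩ := greedy Y
    (fun S => ∃ A ⊆ H ∪ S, A.card = k + r ∧ ∃ A_1 ∈ F, A_1 ⊆ A)
    (by
      rintro S T hST ⟨A, hA, hA2⟩
      exact ⟨A, hA.trans (Finset.union_subset_union (Finset.Subset.refl H) hST), hA2⟩)
    (by omega) (δ / 2) (by linarith) hmu
  have hcomb : 3 / 4 < mu Y (fun S => ∃ A ∈ F, A ⊆ H ∪ (S ∪ Z)) := by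
    refine lt_of_lt_of_le hZm (mu_le _ _ _ ?_)
    rintro S ⟨A, hA, -, B, hB, hBA⟩
    exact ⟨B, hB, hBA.trans hA⟩
  obtain ⟨T, hT, hTA⟩ := tail k F hk (H ∪ Z)
    (fun D1 m1 D2 m2 D3 m3 d1 d2 d3 => comb F hF Y H Z hcomb D1 D2 D3 m1 m2 m3 d1 d2 d3)
  refine ⟨T, ?_, hTA⟩
  have hW : (H ∪ Z).card ≤ (2 * (k + r) - X.card) + Z.card := by
    refine (Finset.card_union_le _ _).trans ?_
    rw [hHc]
  have hT2 : (2 : ℝ) * T.card ≤ 2 * ((2 * (k + r) - X.card) + Z.card) + k + 1 := by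
    have h1 : 2 * T.card ≤ 2 * ((2 * (k + r) - X.card) + Z.card) + k + 1 := by omega
    have h2 : ((2 * T.card : ℕ) : ℝ) ≤
        ((2 * ((2 * (k + r) - X.card) + Z.card) + k + 1 : ℕ) : ℝ) := by exact_mod_cast h1
    push_cast [Nat.cast_sub hX2] at h2
    linarith
  have hlogK : 0 < Real.log (k + r) := by
    apply Real.log_pos
    have : (2 : ℝ) ≤ ((k + r : ℕ) : ℝ) := by exact_mod_cast hK
    push_cast at this
    linarith
  have hlog : Real.log (k + r) ≤ Real.log Y.card := by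
    apply Real.log_le_log
    · have : (2 : ℝ) ≤ ((k + r : ℕ) : ℝ) := by exact_mod_cast hK
      push_cast at this
      linarith
    · have : ((k + r : ℕ) : ℝ) ≤ (Y.card : ℝ) := by exact_mod_cast hY1
      push_cast at this
      exact this
  have hYr : (Y.card : ℝ) ≤ 2 * (k + r) := by
    have : ((Y.card : ℕ) : ℝ) ≤ ((2 * (k + r) : ℕ) : ℝ) := by exact_mod_cast hY2
    push_cast at this
    exact this
  have hfin : 24 * (Y.card : ℝ) / (δ / 2 * Real.log Y.card) ≤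
      96 * (k + r) / (δ * Real.log (k + r)) := by
    rw [div_le_div_iff₀ (mul_pos (by linarith) (hlogK.trans_le hlog)) (mul_pos hδ hlogK)]
    have h1 : 0 ≤ (k : ℝ) + r := by positivity
    calc 24 * (Y.card : ℝ) * (δ * Real.log (k + r))
        ≤ 24 * (2 * (k + r)) * (δ * Real.log Y.card) := by
          apply mul_le_mul _ _ (mul_pos hδ hlogK).le (by positivity)
          · linarith
          · exact mul_le_mul_of_nonneg_left hlog hδ.le
      _ = 96 * (k + r) * (δ / 2 * Real.log Y.card) := by ring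
  linarith

open Classical in
theorem mainR (k r : ℕ) (F : Set (Finset ℕ)) (hK : 2 ≤ k + r) (hk : ∀ A ∈ F, A.card = k)
    (hF : ∀ G : Finset (Finset ℕ), (↑G : Set (Finset ℕ)) ⊆ F → G.card ≤ 7 →
      ∃ x y : ℕ, ∀ A ∈ G, x ∈ A ∨ y ∈ A)
    (X : Finset ℕ) (δ : ℝ) (hδ : 0 < δ) (hX : 3 * (k + r) ≤ 2 * X.card)
    (hd : δ * (X.card.choose (k + r) : ℝ) ≤
      ({B : Finset ℕ | B ⊆ X ∧ B.card = k + r ∧ ∃ A ∈ F, A ⊆ B}.ncard : ℝ)) :
    ∃ T : Finset ℕ, (T.card : ℝ) ≤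
        max ((k : ℝ) / 2) (5 * k / 2 + 2 * r - X.card) +
          96 * (k + r) / (δ * Real.log (k + r)) + 3 / 2 ∧
      ∀ A ∈ F, ∃ t ∈ T, t ∈ A := by
  have hset : {B : Finset ℕ | B ⊆ X ∧ B.card = k + r ∧ ∃ A ∈ F, A ⊆ B} =
      (((X.powersetCard (k + r)).filter (fun B => ∃ A ∈ F, A ⊆ B) : Finset (Finset ℕ)) :
        Set (Finset ℕ)) := by
    ext B
    simp only [Set.mem_ofPred_eq, Finset.coe_filter, Finset.mem_powersetCard]
    tauto
  rw [hset, Set.ncard_coe_finset] at hd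
  rcases le_or_gt X.card (2 * (k + r)) with h | h
  · obtain ⟨T, hT, hTA⟩ := mainX k r F hK hk hF X δ hδ hX h hd
    refine ⟨T, hT.trans ?_, hTA⟩
    have := le_max_right ((k : ℝ) / 2) (5 * k / 2 + 2 * r - X.card)
    linarith
  · obtain ⟨X', hX'X, hX'c, hX'd⟩ := red (fun B => ∃ A ∈ F, A ⊆ B) X (k + r) δ h.le hd
    rw [← hX'c] at hX'd
    obtain ⟨T, hT, hTA⟩ := mainX k r F hK hk hF X' δ hδ (by omega) (by omega) hX'd
    refine ⟨T, hT.trans ?_, hTA⟩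
    rw [hX'c]
    push_cast
    have := le_max_left ((k : ℝ) / 2) (5 * k / 2 + 2 * r - X.card)
    linarith

end Pool.Agent.DZ17
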