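import Mathlib

/-! AvgAS96: proof of upper_shadow. -/

set_option autoImplicit false

namespace Pool.Agent.DZ17.AvgAS96

open Classical in
theorem upper_shadow (P : Finset ℕ → Prop) (X : Finset ℕ) (k m : ℕ) (d : ℝ) (hkm : k ≤ m)
    (hm : m ≤ X.card)
    (h : d * (X.card.choose k : ℝ) ≤ (((X.powersetCard k).filter P).card : ℝ)) :
    d * (X.card.choose m : ℝ) ≤
      (((X.powersetCard m).filter (fun B => ∃ A ⊆ B, A.card = k ∧ P A)).card : ℝ) := by
  set G := (X.powersetCard k).filter P with hG
  set T := (X.powersetCard m).filter (fun B => ∃ A ⊆ B, A.card = k ∧ P A) with hT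
  have hdc : ∑ A ∈ G, (T.filter (fun B => A ⊆ B)).card =
      ∑ B ∈ T, (G.filter (fun A => A ⊆ B)).card :=
    Finset.sum_card_bipartiteAbove_eq_sum_card_bipartiteBelow (fun A B : Finset ℕ => A ⊆ B)
  have hlow : ∀ A ∈ G, (X.card - k).choose (m - k) ≤ (T.filter (fun B => A ⊆ B)).card := by
    intro A hA
    rw [hG, Finset.mem_filter, Finset.mem_powersetCard] at hA
    obtain ⟨⟨hAX, hAk⟩, hPA⟩ := hA
    have e1 : (X.card - k).choose (m - k) =
        (((X \ A).powersetCard (m - k)).image (fun C => A ∪ C)).card := by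
      rw [Finset.card_image_of_injOn, Finset.card_powersetCard, Finset.card_sdiff_of_subset hAX,
        hAk]
      intro C hC D hD hCD
      have hC' := (Finset.mem_powersetCard.1 (Finset.mem_coe.1 hC)).1
      have hD' := (Finset.mem_powersetCard.1 (Finset.mem_coe.1 hD)).1
      have hCD' : A ∪ C = A ∪ D := hCD
      ext x
      constructor
      · intro hx
        have h1 : x ∈ A ∪ D := hCD' ▸ Finset.mem_union_right A hx
        rcases Finset.mem_union.1 h1 with h2 | h2
        · exact absurd h2 (Finset.mem_sdiff.1 (hC' hx)).2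
        · exact h2
      · intro hx
        have h1 : x ∈ A ∪ C := hCD'.symm ▸ Finset.mem_union_right A hx
        rcases Finset.mem_union.1 h1 with h2 | h2
        · exact absurd h2 (Finset.mem_sdiff.1 (hD' hx)).2
        · exact h2
    rw [e1]
    apply Finset.card_le_card
    intro B hB
    rw [Finset.mem_image] at hB
    obtain ⟨C, hC, rfl⟩ := hB
    rw [Finset.mem_powersetCard] at hC
    obtain ⟨hC1, hC2⟩ := hC
    have hdisj : Disjoint A C := by
      rw [Finset.disjoint_left]
      intro x hx hx'
      exact (Finset.mem_sdiff.1 (hC1 hx')).2 hx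
    rw [Finset.mem_filter, hT, Finset.mem_filter, Finset.mem_powersetCard]
    refine ⟨⟨⟨Finset.union_subset hAX (hC1.trans Finset.sdiff_subset), ?_⟩,
      A, Finset.subset_union_left, hAk, hPA⟩, Finset.subset_union_left⟩
    rw [Finset.card_union_of_disjoint hdisj, hAk, hC2]
    omega
  have hup : ∀ B ∈ T, (G.filter (fun A => A ⊆ B)).card ≤ m.choose k := by
    intro B hB
    rw [hT, Finset.mem_filter, Finset.mem_powersetCard] at hB
    rw [← hB.1.2, ← Finset.card_powersetCard]
    apply Finset.card_le_card
    intro A hA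
    rw [Finset.mem_filter, hG, Finset.mem_filter, Finset.mem_powersetCard] at hA
    exact Finset.mem_powersetCard.2 ⟨hA.2, hA.1.1.2⟩
  have hcount : G.card * (X.card - k).choose (m - k) ≤ T.card * m.choose k := by
    calc G.card * (X.card - k).choose (m - k) = ∑ _A ∈ G, (X.card - k).choose (m - k) := by
          rw [Finset.sum_const, smul_eq_mul]
      _ ≤ ∑ A ∈ G, (T.filter (fun B => A ⊆ B)).card := Finset.sum_le_sum hlow
      _ = ∑ B ∈ T, (G.filter (fun A => A ⊆ B)).card := hdc
      _ ≤ ∑ _B ∈ T, m.choose k := Finset.sum_le_sum hup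
      _ = T.card * m.choose k := by rw [Finset.sum_const, smul_eq_mul]
  have hch : X.card.choose m * m.choose k = X.card.choose k * (X.card - k).choose (m - k) :=
    Nat.choose_mul hkm
  have hpos : (0 : ℝ) < (m.choose k : ℝ) := by exact_mod_cast Nat.choose_pos hkm
  have h1 : d * (X.card.choose m : ℝ) * (m.choose k : ℝ) ≤ (T.card : ℝ) * (m.choose k : ℝ) := by
    have e1 : d * (X.card.choose m : ℝ) * (m.choose k : ℝ) =
        d * (X.card.choose k : ℝ) * ((X.card - k).choose (m - k) : ℝ) := by
      have : ((X.card.choose m * m.choose k : ℕ) : ℝ) =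
          ((X.card.choose k * (X.card - k).choose (m - k) : ℕ) : ℝ) := by rw [hch]
      push_cast at this
      linear_combination d * this
    rw [e1]
    calc d * (X.card.choose k : ℝ) * ((X.card - k).choose (m - k) : ℝ)
        ≤ (G.card : ℝ) * ((X.card - k).choose (m - k) : ℝ) :=
          mul_le_mul_of_nonneg_right h (Nat.cast_nonneg _)
      _ ≤ (T.card : ℝ) * (m.choose k : ℝ) := by exact_mod_cast hcount
  exact le_of_mul_le_mul_right h1 hpos

end Pool.Agent.DZ17.AvgAS96
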