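import Pool.Agent.DZ17.Mu

set_option autoImplicit false

/-! Row `half` of `DZ17/AvgA`: at least half of the subsets of a set of `2 * M` points have at
least `M` elements. -/

namespace Pool.Agent.DZ17.HalfS14

theorem half_nat (M : ℕ) :
    2 ^ (2 * M) ≤ 2 * ∑ j ∈ Finset.Icc M (2 * M), (2 * M).choose j := by
  have h1 : ∑ j ∈ Finset.range (2 * M + 1), (2 * M).choose j = 2 ^ (2 * M) :=
    Nat.sum_range_choose (2 * M)
  have hd : Finset.range (2 * M + 1) = Finset.range M ∪ Finset.Icc M (2 * M) := by
    ext j
    simp only [Finset.mem_union, Finset.mem_range, Finset.mem_Icc]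
    omega
  have hdis : Disjoint (Finset.range M) (Finset.Icc M (2 * M)) := by
    rw [Finset.disjoint_left]
    intro j hj hj'
    simp only [Finset.mem_range, Finset.mem_Icc] at hj hj'
    omega
  have h3 : ∑ j ∈ Finset.range M, (2 * M).choose j
      ≤ ∑ j ∈ Finset.Icc M (2 * M), (2 * M).choose j := by
    have e1 : ∑ j ∈ Finset.range M, (2 * M).choose j
        = ∑ i ∈ (Finset.range M).image (fun j => 2 * M - j), (2 * M).choose i := by
      rw [Finset.sum_image]
      · apply Finset.sum_congr rfl
        intro j hj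
        have hj' := Finset.mem_range.1 hj
        exact (Nat.choose_symm (by omega)).symm
      · intro a ha b hb hab
        have ha' := Finset.mem_range.1 (Finset.mem_coe.1 ha)
        have hb' := Finset.mem_range.1 (Finset.mem_coe.1 hb)
        simp only at hab
        omega
    rw [e1]
    apply Finset.sum_le_sum_of_subset
    intro i hi
    obtain ⟨j, hj, rfl⟩ := Finset.mem_image.1 hi
    have hj' := Finset.mem_range.1 hj
    simp only [Finset.mem_Icc]
    omega
  rw [hd, Finset.sum_union hdis] at h1
  omega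

theorem half (M : ℕ) :
    (2 : ℝ) ^ (2 * M) / 2 ≤ ∑ j ∈ Finset.Icc M (2 * M), ((2 * M).choose j : ℝ) := by
  have h : ((2 ^ (2 * M) : ℕ) : ℝ)
      ≤ ((2 * ∑ j ∈ Finset.Icc M (2 * M), (2 * M).choose j : ℕ) : ℝ) :=
    Nat.cast_le.2 (half_nat M)
  push_cast at h
  linarith

end Pool.Agent.DZ17.HalfS14
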