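import Pool.Agent.DZ17.Mu
import Pool.Agent.DZ17.HalfS14
import Pool.Agent.DZ17.AvgAS96

/-! AvgA. P a property of k-sets, n = card X, k <= m <= n.
upper_shadow: the number of m-subsets B of X that contain a k-set with P is >= d C(n,m): count the
pairs (A, B), A subset of B subset of X, card A = k, P A, card B = m: the number is
#{A} C(n-k,m-k) >= d C(n,k) C(n-k,m-k) = d C(n,m) C(m,k) (Nat.choose_mul) and
<= #{B good} C(m,k).
half: sum over j >= M of C(2M, j) >= 2^(2M)/2, i.e. at least half of the subsets of a 2M-set have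
>= M elements (complement). -/

namespace Pool.Agent.DZ17

open Classical in
theorem upper_shadow (P : Finset ℕ → Prop) (X : Finset ℕ) (k m : ℕ) (d : ℝ) (hkm : k ≤ m)
    (hm : m ≤ X.card)
    (h : d * (X.card.choose k : ℝ) ≤ (((X.powersetCard k).filter P).card : ℝ)) :
    d * (X.card.choose m : ℝ) ≤
      (((X.powersetCard m).filter (fun B => ∃ A ⊆ B, A.card = k ∧ P A)).card : ℝ) := by
  exact AvgAS96.upper_shadow P X k m d hkm hm h

theorem half (M : ℕ) :
    (2 : ℝ) ^ (2 * M) / 2 ≤ ∑ j ∈ Finset.Icc M (2 * M), ((2 * M).choose j : ℝ) :=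
  HalfS14.half M

end Pool.Agent.DZ17
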