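import Mathlib

/-! DZ17 (helper17), MP_d6084f_co: the uniform cube on the subsets of a finite set `Y` of naturals.
`ex Y f` is the mean value of `f` over the subsets of `Y`, `fl i S` is `S` with `i` switched,
`en Y f` the energy, `av i f` the average over the coordinate `i`. -/

namespace Pool.Agent.DZ17

/-- mean value over the subsets of `Y` -/
noncomputable def ex (Y : Finset ℕ) (f : Finset ℕ → ℝ) : ℝ :=
  (∑ S ∈ Y.powerset, f S) / 2 ^ Y.card

/-- switch the element `i` -/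
def fl (i : ℕ) (S : Finset ℕ) : Finset ℕ := symmDiff S {i}

/-- energy -/
noncomputable def en (Y : Finset ℕ) (f : Finset ℕ → ℝ) : ℝ :=
  ∑ i ∈ Y, ex Y (fun S => (f S - f (fl i S)) ^ 2)

/-- average over the coordinate `i` -/
noncomputable def av (i : ℕ) (f : Finset ℕ → ℝ) : Finset ℕ → ℝ :=
  fun S => (f S + f (fl i S)) / 2

/-- influence -/
noncomputable def inf (Y : Finset ℕ) (i : ℕ) (f : Finset ℕ → ℝ) : ℝ :=
  ex Y (fun S => |f S - f (fl i S)|)

theorem fl_fl (i : ℕ) (S : Finset ℕ) : fl i (fl i S) = S := by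
  unfold fl
  rw [symmDiff_assoc, symmDiff_self, symmDiff_bot]

theorem fl_comm (i j : ℕ) (S : Finset ℕ) : fl i (fl j S) = fl j (fl i S) := by
  unfold fl
  rw [symmDiff_right_comm]

theorem fl_sub {Y : Finset ℕ} {i : ℕ} (hi : i ∈ Y) {S : Finset ℕ} (hS : S ∈ Y.powerset) :
    fl i S ∈ Y.powerset := by
  rw [Finset.mem_powerset] at hS ⊢
  intro x hx
  unfold fl at hx
  rw [Finset.mem_symmDiff, Finset.mem_singleton] at hx
  rcases hx with ⟨h, -⟩ | ⟨h, -⟩
  · exact hS h
  · rw [h]; exact hi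

theorem ex_fl {Y : Finset ℕ} {i : ℕ} (hi : i ∈ Y) (f : Finset ℕ → ℝ) :
    ex Y (fun S => f (fl i S)) = ex Y f := by
  unfold ex
  congr 1
  exact Finset.sum_nbij' (fl i) (fl i) (fun S hS => fl_sub hi hS) (fun S hS => fl_sub hi hS)
    (fun S _ => fl_fl i S) (fun S _ => fl_fl i S) (fun S _ => rfl)

theorem ex_add (Y : Finset ℕ) (f g : Finset ℕ → ℝ) :
    ex Y (fun S => f S + g S) = ex Y f + ex Y g := by
  unfold ex
  rw [Finset.sum_add_distrib, add_div]

theorem ex_mul (Y : Finset ℕ) (c : ℝ) (f : Finset ℕ → ℝ) :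
    ex Y (fun S => c * f S) = c * ex Y f := by
  unfold ex
  rw [← Finset.mul_sum, mul_div_assoc]

theorem ex_const (Y : Finset ℕ) (c : ℝ) : ex Y (fun _ => c) = c := by
  unfold ex
  rw [Finset.sum_const, Finset.card_powerset, nsmul_eq_mul]
  push_cast
  field_simp

theorem ex_mono (Y : Finset ℕ) {f g : Finset ℕ → ℝ} (h : ∀ S, S ⊆ Y → f S ≤ g S) :
    ex Y f ≤ ex Y g := by
  unfold ex
  apply div_le_div_of_nonneg_right _ (by positivity)
  exact Finset.sum_le_sum fun S hS => h S (Finset.mem_powerset.1 hS)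

theorem ex_nonneg (Y : Finset ℕ) {f : Finset ℕ → ℝ} (h : ∀ S, S ⊆ Y → 0 ≤ f S) :
    0 ≤ ex Y f := by
  unfold ex
  apply div_nonneg _ (by positivity)
  exact Finset.sum_nonneg fun S hS => h S (Finset.mem_powerset.1 hS)

theorem en_nonneg (Y : Finset ℕ) (f : Finset ℕ → ℝ) : 0 ≤ en Y f :=
  Finset.sum_nonneg fun _ _ => ex_nonneg Y fun _ _ => sq_nonneg _

end Pool.Agent.DZ17
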