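import Pool.Agent.DZ17.Mu

/-! Four. ex_tr: translation by a subset C of Y permutes the subsets of Y. four: union bound:
if for every S in powerset Y one of the four fails then 1 <= sum of the four proportions of
failures = 4 (1 - mu Y U) < 1. -/

namespace Pool.Agent.DZ17

theorem ex_tr {Y C : Finset ℕ} (hC : C ⊆ Y) (f : Finset ℕ → ℝ) :
    ex Y (fun S => f (symmDiff S C)) = ex Y f := by
  have hsub : ∀ S ∈ Y.powerset, symmDiff S C ∈ Y.powerset := by
    intro S hS
    rw [Finset.mem_powerset] at hS ⊢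
    intro x hx
    rw [Finset.mem_symmDiff] at hx
    rcases hx with ⟨h, -⟩ | ⟨h, -⟩
    · exact hS h
    · exact hC h
  have hinv : ∀ S : Finset ℕ, symmDiff (symmDiff S C) C = S := fun S => by
    rw [symmDiff_assoc, symmDiff_self, symmDiff_bot]
  unfold ex
  congr 1
  exact Finset.sum_nbij' (fun S => symmDiff S C) (fun S => symmDiff S C) hsub hsub
    (fun S _ => hinv S) (fun S _ => hinv S) (fun S _ => rfl)

theorem four (Y : Finset ℕ) (U : Finset ℕ → Prop) (C1 C2 C3 : Finset ℕ) (h1 : C1 ⊆ Y)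
    (h2 : C2 ⊆ Y) (h3 : C3 ⊆ Y) (h : 3 / 4 < mu Y U) :
    ∃ S ⊆ Y, U S ∧ U (symmDiff S C1) ∧ U (symmDiff S C2) ∧ U (symmDiff S C3) := by
  by_contra hcon
  have h0 : ∀ T, 0 ≤ ind U T ∧ ind U T ≤ 1 := by
    intro T
    unfold ind
    split_ifs <;> norm_num
  have hz : ∀ T, ¬ U T → ind U T = 0 := by
    intro T hT
    unfold ind
    rw [if_neg hT]
  have hle : ∀ S, S ⊆ Y → ind U S + ind U (symmDiff S C1) +
      (ind U (symmDiff S C2) + ind U (symmDiff S C3)) ≤ 3 := by
    intro S hS
    have a0 := h0 S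
    have a1 := h0 (symmDiff S C1)
    have a2 := h0 (symmDiff S C2)
    have a3 := h0 (symmDiff S C3)
    by_cases b0 : U S
    · by_cases b1 : U (symmDiff S C1)
      · by_cases b2 : U (symmDiff S C2)
        · by_cases b3 : U (symmDiff S C3)
          · exact absurd ⟨S, hS, b0, b1, b2, b3⟩ hcon
          · have := hz _ b3
            linarith [a0.1, a0.2, a1.1, a1.2, a2.1, a2.2]
        · have := hz _ b2
          linarith [a0.1, a0.2, a1.1, a1.2, a3.1, a3.2]
      · have := hz _ b1
        linarith [a0.1, a0.2, a2.1, a2.2, a3.1, a3.2]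
    · have := hz _ b0
      linarith [a1.1, a1.2, a2.1, a2.2, a3.1, a3.2]
  have hm := ex_mono Y hle
  rw [ex_const, ex_add, ex_add, ex_add, ex_tr h1, ex_tr h2, ex_tr h3] at hm
  unfold mu at h
  have e : ex Y (fun S => ind U S) = ex Y (ind U) := rfl
  rw [e] at hm
  linarith

end Pool.Agent.DZ17
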