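import Pool.Agent.DZ17.Kkl

/-! Greedy: the greedy choice. -/

namespace Pool.Agent.DZ17

theorem greedy83 (Y : Finset ℕ) (U : Finset ℕ → Prop)
    (hstep : ∀ (Z : Finset ℕ) (i : ℕ), i ∈ Y → mu Y (fun S => U (S ∪ insert i Z)) =
      mu Y (fun S => U (S ∪ Z)) + inf Y i (ind (fun S => U (S ∪ Z))) / 2)
    (hN : 2 ≤ Y.card) (d : ℝ) (hd : 0 < d) (h : d ≤ mu Y U) : ∃ Z ⊆ Y,
    (Z.card : ℝ) ≤ 24 * Y.card / (d * Real.log Y.card) + 1 ∧
      3 / 4 < mu Y (fun S => U (S ∪ Z)) := by
  have hN2 : (2 : ℝ) ≤ Y.card := by exact_mod_cast hN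
  have hN0 : (0 : ℝ) < Y.card := by linarith
  have hlog : 0 < Real.log Y.card := Real.log_pos (by linarith)
  by_contra hcon
  push Not at hcon
  have key : ∀ m : ℕ, (m : ℝ) ≤ 24 * Y.card / (d * Real.log Y.card) + 1 →
      ∃ Z ⊆ Y, Z.card ≤ m ∧ d ≤ mu Y (fun S => U (S ∪ Z)) ∧
        (m : ℝ) * (d * Real.log Y.card / (32 * Y.card)) ≤ mu Y (fun S => U (S ∪ Z)) := by
    intro m
    induction m with
    | zero =>
      intro _
      refine ⟨∅, Finset.empty_subset _, by simp, ?_, ?_⟩
      · simp only [Finset.union_empty]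
        exact h
      · simp only [Finset.union_empty]
        rw [Nat.cast_zero, zero_mul]
        linarith
    | succ m ih =>
      intro hm
      push_cast at hm
      obtain ⟨Z, hZ, hc, h1, h2⟩ := ih (by linarith)
      have hZc : (Z.card : ℝ) ≤ m := by exact_mod_cast hc
      have h3 : mu Y (fun S => U (S ∪ Z)) ≤ 3 / 4 := hcon Z hZ (by linarith)
      obtain ⟨i, hi, h4⟩ := kkl Y (fun S => U (S ∪ Z)) hN (by linarith) (by linarith)
      have h5 := hstep Z i hi
      set w : ℝ := mu Y (fun S => U (S ∪ Z)) with hw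
      have h6 : d / 4 ≤ w * (1 - w) := by nlinarith
      have h7 : d / 4 * Real.log Y.card / (4 * Y.card) ≤
          w * (1 - w) * Real.log Y.card / (4 * Y.card) := by
        apply div_le_div_of_nonneg_right _ (by positivity)
        exact mul_le_mul_of_nonneg_right h6 hlog.le
      have h8 : d / 4 * Real.log Y.card / (4 * Y.card) =
          2 * (d * Real.log Y.card / (32 * Y.card)) := by
        field_simp
        norm_num
      have h9 : 0 < d * Real.log Y.card / (32 * Y.card) := by positivity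
      have hci : (insert i Z).card ≤ m + 1 := (Finset.card_insert_le i Z).trans (by omega)
      refine ⟨insert i Z, Finset.insert_subset hi hZ, hci, ?_, ?_⟩
      · rw [h5]
        linarith
      · rw [h5]
        push_cast
        linarith
  have hq0 : 0 ≤ 24 * (Y.card : ℝ) / (d * Real.log Y.card) := by positivity
  set q : ℝ := 24 * (Y.card : ℝ) / (d * Real.log Y.card) with hq
  have hf1 := Nat.floor_le hq0
  have hf2 := Nat.lt_floor_add_one q
  obtain ⟨Z, hZ, hc, -, h2⟩ := key (⌊q⌋₊ + 1) (by push_cast; linarith)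
  have hZc : (Z.card : ℝ) ≤ (⌊q⌋₊ : ℝ) + 1 := by exact_mod_cast hc
  have h3 : mu Y (fun S => U (S ∪ Z)) ≤ 3 / 4 := hcon Z hZ (by linarith)
  push_cast at h2
  have hc0 : 0 < d * Real.log Y.card / (32 * Y.card) := by positivity
  have h4 : q * (d * Real.log Y.card / (32 * Y.card)) = 3 / 4 := by
    rw [hq]
    field_simp
    norm_num
  have h5 : q * (d * Real.log Y.card / (32 * Y.card)) <
      ((⌊q⌋₊ : ℝ) + 1) * (d * Real.log Y.card / (32 * Y.card)) :=
    mul_lt_mul_of_pos_right hf2 hc0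
  linarith

end Pool.Agent.DZ17
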