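import Pool.Agent.DZ17.Mu

/-! Greedy step. -/

namespace Pool.Agent.DZ17

theorem stepS83_ind {U : Finset ℕ → Prop} (hU : ∀ S T, S ⊆ T → U S → U T) {S T : Finset ℕ}
    (h : S ⊆ T) : ind U S ≤ ind U T := by
  unfold ind
  by_cases h1 : U S
  · rw [if_pos h1, if_pos (hU S T h h1)]
  · rw [if_neg h1]
    split_ifs
    · exact zero_le_one
    · exact le_rfl

theorem stepS83_congr {U U' : Finset ℕ → Prop} (S S' : Finset ℕ) (h : U S ↔ U' S') :
    ind U S = ind U' S' := by
  unfold ind
  by_cases h1 : U S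
  · rw [if_pos h1, if_pos (h.1 h1)]
  · rw [if_neg h1, if_neg (fun h2 => h1 (h.2 h2))]

theorem stepS83_pt (U : Finset ℕ → Prop) (hU : ∀ S T, S ⊆ T → U S → U T) (Z : Finset ℕ)
    (i : ℕ) (S : Finset ℕ) :
    ind (fun S => U (S ∪ insert i Z)) S =
      (1 / 2) * (ind (fun S => U (S ∪ Z)) S + (ind (fun S => U (S ∪ Z)) (fl i S) +
        |ind (fun S => U (S ∪ Z)) S - ind (fun S => U (S ∪ Z)) (fl i S)|)) := by
  have hV : ∀ S T : Finset ℕ, S ⊆ T → U (S ∪ Z) → U (T ∪ Z) := fun S T h =>
    hU _ _ (Finset.union_subset_union_left h)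
  by_cases hi : i ∈ S
  · have e : S ∪ insert i Z = S ∪ Z := by
      ext x
      simp only [Finset.mem_union, Finset.mem_insert]
      constructor
      · rintro (h | rfl | h)
        · exact Or.inl h
        · exact Or.inl hi
        · exact Or.inr h
      · rintro (h | h)
        · exact Or.inl h
        · exact Or.inr (Or.inr h)
    have hs : fl i S ⊆ S := by
      intro x hx
      unfold fl at hx
      rw [Finset.mem_symmDiff, Finset.mem_singleton] at hx
      rcases hx with ⟨h, -⟩ | ⟨h, h'⟩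
      · exact h
      · rw [h]; exact hi
    have h1 : ind (fun S => U (S ∪ insert i Z)) S = ind (fun S => U (S ∪ Z)) S := by
      exact stepS83_congr _ _ (by show U (S ∪ insert i Z) ↔ U (S ∪ Z); rw [e])
    have h2 : ind (fun S => U (S ∪ Z)) (fl i S) ≤ ind (fun S => U (S ∪ Z)) S :=
      stepS83_ind (U := fun S => U (S ∪ Z)) hV hs
    rw [h1, abs_of_nonneg (by linarith)]
    ring
  · have hfl : fl i S = insert i S := by
      unfold fl
      ext x
      rw [Finset.mem_symmDiff, Finset.mem_singleton, Finset.mem_insert]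
      constructor
      · rintro (⟨h, -⟩ | ⟨h, -⟩)
        · exact Or.inr h
        · exact Or.inl h
      · rintro (h | h)
        · refine Or.inr ⟨h, ?_⟩
          rw [h]; exact hi
        · refine Or.inl ⟨h, ?_⟩
          rintro rfl
          exact hi h
    have e : S ∪ insert i Z = insert i S ∪ Z := by
      ext x
      simp only [Finset.mem_union, Finset.mem_insert]
      tauto
    have h1 : ind (fun S => U (S ∪ insert i Z)) S = ind (fun S => U (S ∪ Z)) (fl i S) := by
      rw [hfl]
      exact stepS83_congr _ _ (by show U (S ∪ insert i Z) ↔ U (insert i S ∪ Z); rw [e])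
    have h2 : ind (fun S => U (S ∪ Z)) S ≤ ind (fun S => U (S ∪ Z)) (fl i S) := by
      apply stepS83_ind (U := fun S => U (S ∪ Z)) hV
      rw [hfl]
      exact Finset.subset_insert _ _
    rw [h1, abs_of_nonpos (by linarith)]
    ring

theorem step83 (Y : Finset ℕ) (U : Finset ℕ → Prop) (hU : ∀ S T, S ⊆ T → U S → U T) (Z : Finset ℕ)
    {i : ℕ} (hi : i ∈ Y) :
    mu Y (fun S => U (S ∪ insert i Z)) =
      mu Y (fun S => U (S ∪ Z)) + inf Y i (ind (fun S => U (S ∪ Z))) / 2 := by
  unfold mu inf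
  have h1 : ex Y (ind (fun S => U (S ∪ insert i Z))) = ex Y (fun S =>
      (1 / 2) * (ind (fun S => U (S ∪ Z)) S + (ind (fun S => U (S ∪ Z)) (fl i S) +
        |ind (fun S => U (S ∪ Z)) S - ind (fun S => U (S ∪ Z)) (fl i S)|))) := by
    congr 1
    funext S
    exact stepS83_pt U hU Z i S
  rw [h1, ex_mul, ex_add, ex_add, ex_fl hi]
  ring

end Pool.Agent.DZ17
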