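import Pool.Agent.DZ17.Kkl
import Pool.Agent.DZ17.GreedyS83
import Pool.Agent.DZ17.StepS83

/-! Greedy. U up-set. mu_mono: Z subset of Z' implies mu Y U_Z <= mu Y U_Z', U_Z S = U (S + Z).
step: for i in Y: mu Y U_(Z+i) - mu Y U_Z = inf Y i (ind U_Z)/2: g = ind U_Z is monotone, and
ind U_(Z+i) S = g (S + i) = max (g S) (g (fl i S)), and 2 max(a,b) = a + b + |a - b|, ex_fl.
greedy: induction on m: if every Z subset of Y with at most m elements has mu Y U_Z <= 3/4 then some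
Z with at most m elements has mu Y U_Z >= m d log N/(32 N) (kkl for U_Z: mu (1 - mu) >= d/4, inf >
d log N/(16 N), so mu grows by > d log N/(32 N)). With m = floor(24 N/(d log N)) + 1 this would give
mu > 3/4. -/

namespace Pool.Agent.DZ17

theorem step (Y : Finset ℕ) (U : Finset ℕ → Prop) (hU : ∀ S T, S ⊆ T → U S → U T) (Z : Finset ℕ)
    {i : ℕ} (hi : i ∈ Y) :
    mu Y (fun S => U (S ∪ insert i Z)) =
      mu Y (fun S => U (S ∪ Z)) + inf Y i (ind (fun S => U (S ∪ Z))) / 2 :=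
  step83 Y U hU Z hi

theorem greedy (Y : Finset ℕ) (U : Finset ℕ → Prop) (hU : ∀ S T, S ⊆ T → U S → U T)
    (hN : 2 ≤ Y.card) (d : ℝ) (hd : 0 < d) (h : d ≤ mu Y U) : ∃ Z ⊆ Y,
    (Z.card : ℝ) ≤ 24 * Y.card / (d * Real.log Y.card) + 1 ∧
      3 / 4 < mu Y (fun S => U (S ∪ Z)) :=
  greedy83 Y U (fun Z _ hi => step Y U hU Z hi) hN d hd h

end Pool.Agent.DZ17
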