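import Pool.Agent.DZ17.Def

/-! Ins. Finset.sum_powerset_insert. For en_insert: the term i = a: fl a S = insert a S if a is not
in S and fl a (insert a S) = S; the term i in Y, S in powerset Y: fl i (insert a S) =
insert a (fl i S) since i <> a. -/

namespace Pool.Agent.DZ17

theorem ex_insert {a : ℕ} {Y : Finset ℕ} (ha : a ∉ Y) (f : Finset ℕ → ℝ) :
    ex (insert a Y) f = (ex Y f + ex Y (fun S => f (insert a S))) / 2 := by
  unfold ex
  rw [Finset.sum_powerset_insert ha, Finset.card_insert_of_notMem ha, pow_succ]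
  field_simp

theorem ins_congr (Y : Finset ℕ) {f g : Finset ℕ → ℝ} (h : ∀ S, S ⊆ Y → f S = g S) :
    ex Y f = ex Y g := by
  unfold ex
  congr 1
  exact Finset.sum_congr rfl fun S hS => h S (Finset.mem_powerset.1 hS)

theorem ins_fl_self {a : ℕ} {S : Finset ℕ} (h : a ∉ S) : fl a S = insert a S := by
  ext x
  unfold fl
  rw [Finset.mem_symmDiff, Finset.mem_singleton, Finset.mem_insert]
  constructor
  · rintro (⟨h1, _⟩ | ⟨h1, _⟩)
    · exact Or.inr h1
    · exact Or.inl h1
  · rintro (h1 | h1)
    · exact Or.inr ⟨h1, h1 ▸ h⟩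
    · exact Or.inl ⟨h1, fun h2 => h (h2 ▸ h1)⟩

theorem ins_fl_ne {a i : ℕ} {S : Finset ℕ} (h : i ≠ a) :
    fl i (insert a S) = insert a (fl i S) := by
  ext x
  unfold fl
  simp only [Finset.mem_symmDiff, Finset.mem_singleton, Finset.mem_insert]
  by_cases hx : x = a
  · subst hx
    simp [h.symm]
  · simp [hx]

theorem en_insert {a : ℕ} {Y : Finset ℕ} (ha : a ∉ Y) (f : Finset ℕ → ℝ) :
    en (insert a Y) f = ex Y (fun S => (f S - f (insert a S)) ^ 2) +
      (en Y f + en Y (fun S => f (insert a S))) / 2 := by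
  unfold en
  rw [Finset.sum_insert ha, ex_insert ha]
  have h1 : ex Y (fun S => (f S - f (fl a S)) ^ 2) =
      ex Y (fun S => (f S - f (insert a S)) ^ 2) := by
    apply ins_congr
    intro S hS
    rw [ins_fl_self (fun h => ha (hS h))]
  have h2 : ex Y (fun S => (f (insert a S) - f (fl a (insert a S))) ^ 2) =
      ex Y (fun S => (f S - f (insert a S)) ^ 2) := by
    apply ins_congr
    intro S hS
    have h3 : fl a (insert a S) = S := by
      rw [← ins_fl_self (fun h => ha (hS h)), fl_fl]
    rw [h3]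
    ring
  have h3 : ∑ i ∈ Y, ex (insert a Y) (fun S => (f S - f (fl i S)) ^ 2) =
      (∑ i ∈ Y, ex Y (fun S => (f S - f (fl i S)) ^ 2) +
        ∑ i ∈ Y, ex Y (fun S => (f (insert a S) - f (insert a (fl i S))) ^ 2)) / 2 := by
    rw [← Finset.sum_add_distrib, Finset.sum_div]
    apply Finset.sum_congr rfl
    intro i hi
    rw [ex_insert ha]
    congr 2
    apply ins_congr
    intro S _
    have hia : i ≠ a := by
      intro h
      rw [h] at hi
      exact ha hi
    rw [ins_fl_ne hia]
  rw [h1, h2, h3]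
  ring

end Pool.Agent.DZ17
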