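import Pool.Agent.DZ17.Mart
import Pool.Agent.DZ17.Mu

/-! Kkl. f = ind U, f^2 = f, so ex f^2 - (ex f)^2 = m (1 - m) = V, 0 < V <= 1/4, and
(f - f o fl i)^2 = |f - f o fl i|, so en Y f = sum_(i in Y) inf Y i f. N = card Y >= 2.
If inf Y i f <= th := V log N/(4N) for all i in Y: mart with t = 64 N/(V (log N)^2):
t * N th^2/4 = V, so V (log t + 1) - V <= N th = V log N/4, log t <= log N/4. But log N <= 4 N^(1/4)
(log x <= x for x = N^(1/4)), so (log N)^2 <= 16 sqrt N and t >= 256 N/(log N)^2 >= 16 sqrt N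
> N^(1/4), a contradiction. -/

namespace Pool.Agent.DZ17

theorem ind_val (U : Finset ℕ → Prop) (S : Finset ℕ) : ind U S = 0 ∨ ind U S = 1 := by
  unfold ind
  split_ifs
  · exact Or.inr rfl
  · exact Or.inl rfl

theorem ex_ind_sq (Y : Finset ℕ) (U : Finset ℕ → Prop) :
    ex Y (fun S => ind U S ^ 2) = mu Y U := by
  unfold mu
  congr 1
  funext S
  rcases ind_val U S with h | h <;> rw [h] <;> norm_num

theorem ex_ind_fl (Y : Finset ℕ) (U : Finset ℕ → Prop) (i : ℕ) :
    ex Y (fun S => (ind U S - ind U (fl i S)) ^ 2) = inf Y i (ind U) := by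
  unfold inf
  congr 1
  funext S
  rcases ind_val U S with h | h <;> rcases ind_val U (fl i S) with h' | h' <;> rw [h, h'] <;>
    norm_num

theorem en_ind (Y : Finset ℕ) (U : Finset ℕ → Prop) :
    en Y (ind U) = ∑ i ∈ Y, inf Y i (ind U) :=
  Finset.sum_congr rfl fun i _ => ex_ind_fl Y U i

theorem inf_nonneg (Y : Finset ℕ) (i : ℕ) (f : Finset ℕ → ℝ) : 0 ≤ inf Y i f :=
  ex_nonneg Y fun _ _ => abs_nonneg _

/-- the numerical contradiction -/
theorem kkl_num (N V : ℝ) (hN : 2 ≤ N) (hV : 0 < V) (hV4 : V ≤ 1 / 4) :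
    Real.log N / 4 < Real.log (64 * N / (V * Real.log N ^ 2)) := by
  set L := Real.log N with hL
  have hL0 : 0 < L := Real.log_pos (by linarith)
  have hN0 : 0 < N := by linarith
  have ht : 0 < 64 * N / (V * L ^ 2) := by positivity
  rw [Real.lt_log_iff_exp_lt ht]
  set x := Real.exp (L / 4) with hx
  have hx1 : L / 4 + 1 ≤ x := Real.add_one_le_exp _
  have hx4 : x ^ 4 = N := by
    rw [hx, ← Real.exp_nat_mul]
    have e : ((4 : ℕ) : ℝ) * (L / 4) = L := by push_cast; ring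
    rw [e, hL, Real.exp_log hN0]
  have hLx : L < 4 * x := by linarith
  have hx0 : 1 < x := by linarith
  rw [lt_div_iff₀ (by positivity), ← hx4]
  have h1 : L ^ 2 < 16 * x ^ 2 := by nlinarith
  have h2 : V * L ^ 2 < 4 * x ^ 2 := by
    have h3 : V * L ^ 2 ≤ 1 / 4 * L ^ 2 := mul_le_mul_of_nonneg_right hV4 (by positivity)
    linarith
  have h3 : x * (V * L ^ 2) < x * (4 * x ^ 2) := mul_lt_mul_of_pos_left h2 (by linarith)
  have h4 : x * (4 * x ^ 2) ≤ 64 * x ^ 4 := by
    have h5 : x ^ 3 ≤ x ^ 4 := pow_le_pow_right₀ hx0.le (by norm_num)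
    have h6 : 0 ≤ x ^ 3 := by positivity
    nlinarith
  linarith

theorem kkl (Y : Finset ℕ) (U : Finset ℕ → Prop) (hN : 2 ≤ Y.card) (h0 : 0 < mu Y U)
    (h1 : mu Y U < 1) : ∃ i ∈ Y,
    mu Y U * (1 - mu Y U) * Real.log Y.card / (4 * Y.card) < inf Y i (ind U) := by
  by_contra hcon
  have hcon' : ∀ i ∈ Y, inf Y i (ind U) ≤
      mu Y U * (1 - mu Y U) * Real.log Y.card / (4 * Y.card) := by
    intro i hi
    by_contra h
    exact hcon ⟨i, hi, lt_of_not_ge h⟩
  set m := mu Y U with hm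
  set V := m * (1 - m) with hVd
  have hV : 0 < V := mul_pos h0 (by linarith)
  have hV4 : V ≤ 1 / 4 := by
    rw [hVd]
    nlinarith [sq_nonneg (m - 1 / 2)]
  have hN' : (2 : ℝ) ≤ (Y.card : ℝ) := by exact_mod_cast hN
  set N : ℝ := (Y.card : ℝ) with hNd
  set L := Real.log N with hLd
  have hL0 : 0 < L := Real.log_pos (by linarith)
  have hN0 : 0 < N := by linarith
  set th := V * L / (4 * N) with hth
  have hth0 : 0 ≤ th := by positivity
  set t := 64 * N / (V * L ^ 2) with htd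
  have ht : 0 < t := by positivity
  have hmart := mart Y (ind U) t ht
  rw [ex_ind_sq, en_ind] at hmart
  have hexm : ex Y (ind U) = m := rfl
  rw [hexm, ← hm] at hmart
  have hs1 : ∑ i ∈ Y, (inf Y i (ind U) / 2) ^ 2 ≤ N * (th / 2) ^ 2 := by
    calc ∑ i ∈ Y, (inf Y i (ind U) / 2) ^ 2 ≤ ∑ _i ∈ Y, (th / 2) ^ 2 := by
          refine Finset.sum_le_sum fun i hi => ?_
          have a1 := inf_nonneg Y i (ind U)
          have a2 := hcon' i hi
          exact pow_le_pow_left₀ (by linarith) (by linarith) 2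
      _ = N * (th / 2) ^ 2 := by rw [Finset.sum_const, nsmul_eq_mul]
  have hs2 : ∑ i ∈ Y, inf Y i (ind U) ≤ N * th := by
    calc ∑ i ∈ Y, inf Y i (ind U) ≤ ∑ _i ∈ Y, th := Finset.sum_le_sum fun i hi => hcon' i hi
      _ = N * th := by rw [Finset.sum_const, nsmul_eq_mul]
  have e1 : t * (N * (th / 2) ^ 2) = V := by
    rw [htd, hth]
    field_simp
    norm_num
  have e2 : N * th = V * (L / 4) := by
    rw [hth]
    field_simp
  have hs3 : t * ∑ i ∈ Y, (inf Y i (ind U) / 2) ^ 2 ≤ V := by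
    rw [← e1]
    exact mul_le_mul_of_nonneg_left hs1 ht.le
  have hfin : V * Real.log t ≤ V * (L / 4) := by
    have e3 : m - m ^ 2 = V := by rw [hVd]; ring
    rw [e3] at hmart
    rw [← e2]
    linarith
  have hlog : Real.log t ≤ L / 4 := le_of_mul_le_mul_left hfin hV
  have hnum := kkl_num N V hN' hV hV4
  rw [← hLd, ← htd] at hnum
  linarith

end Pool.Agent.DZ17
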