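import Pool.Agent.DZ17.Mart
import Pool.Agent.DZ17.Mu

/-! Proof of `Kkl.kkl` (helper50). -/

namespace Pool.Agent.DZ17

theorem kkl_s50 (Y : Finset ℕ) (U : Finset ℕ → Prop) (hN : 2 ≤ Y.card) (h0 : 0 < mu Y U)
    (h1 : mu Y U < 1) : ∃ i ∈ Y,
    mu Y U * (1 - mu Y U) * Real.log Y.card / (4 * Y.card) < inf Y i (ind U) := by
  classical
  by_contra hcon
  push Not at hcon
  have hid : ∀ S, ind U S ^ 2 = ind U S := by
    intro S; unfold ind; split_ifs <;> norm_num
  have hab : ∀ S T, (ind U S - ind U T) ^ 2 = |ind U S - ind U T| := by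
    intro S T; unfold ind; split_ifs <;> norm_num
  have hen : en Y (ind U) = ∑ i ∈ Y, inf Y i (ind U) := by
    unfold en inf
    apply Finset.sum_congr rfl
    intro i _
    congr 1
    funext S
    exact hab _ _
  have hsq : ex Y (fun S => ind U S ^ 2) = mu Y U := by
    unfold mu
    congr 1
    funext S
    exact hid S
  have hin0 : ∀ i, 0 ≤ inf Y i (ind U) := fun i => ex_nonneg Y fun S _ => abs_nonneg _
  have hm : ex Y (ind U) = mu Y U := rfl
  generalize mu Y U = m at *
  have hN2 : (2 : ℝ) ≤ Y.card := by exact_mod_cast hN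
  have hcard : ∑ i ∈ Y, (1 : ℝ) = Y.card := by simp
  generalize hNN : (Y.card : ℝ) = N at *
  have hL : 0 < Real.log N := Real.log_pos (by linarith)
  generalize hLL : Real.log N = L at *
  have hV : 0 < m * (1 - m) := mul_pos h0 (by linarith)
  have hV4 : m * (1 - m) ≤ 1 / 4 := by nlinarith [sq_nonneg (m - 1 / 2)]
  have hmm : m - m ^ 2 = m * (1 - m) := by ring
  generalize m * (1 - m) = V at *
  have hN0 : 0 < N := by linarith
  have ht : 0 < 64 * N / (V * L ^ 2) := by positivity
  have key := mart Y (ind U) (64 * N / (V * L ^ 2)) ht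
  rw [hsq, hm, hmm, hen] at key
  have hs1 : ∑ i ∈ Y, inf Y i (ind U) ≤ V * L / 4 := by
    calc ∑ i ∈ Y, inf Y i (ind U) ≤ ∑ i ∈ Y, V * L / (4 * N) :=
          Finset.sum_le_sum fun i hi => hcon i hi
      _ = (∑ i ∈ Y, (1 : ℝ)) * (V * L / (4 * N)) := by rw [Finset.sum_mul]; simp
      _ = V * L / 4 := by rw [hcard]; field_simp
  have hs2 : ∑ i ∈ Y, (inf Y i (ind U) / 2) ^ 2 ≤ V ^ 2 * L ^ 2 / (64 * N) := by
    calc ∑ i ∈ Y, (inf Y i (ind U) / 2) ^ 2 ≤ ∑ i ∈ Y, (V * L / (4 * N) / 2) ^ 2 := by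
          apply Finset.sum_le_sum
          intro i hi
          have := hcon i hi
          have h2 := hin0 i
          exact pow_le_pow_left₀ (by linarith) (by linarith) 2
      _ = (∑ i ∈ Y, (1 : ℝ)) * (V * L / (4 * N) / 2) ^ 2 := by rw [Finset.sum_mul]; simp
      _ = V ^ 2 * L ^ 2 / (64 * N) := by rw [hcard]; field_simp; ring
  have hs3 : 64 * N / (V * L ^ 2) * ∑ i ∈ Y, (inf Y i (ind U) / 2) ^ 2 ≤ V := by
    calc 64 * N / (V * L ^ 2) * ∑ i ∈ Y, (inf Y i (ind U) / 2) ^ 2 ≤
        64 * N / (V * L ^ 2) * (V ^ 2 * L ^ 2 / (64 * N)) := mul_le_mul_of_nonneg_left hs2 ht.le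
      _ = V := by field_simp
  have hlt : Real.log (64 * N / (V * L ^ 2)) ≤ L / 4 := by
    have h5 : V * Real.log (64 * N / (V * L ^ 2)) ≤ V * (L / 4) := by
      have e : V * (Real.log (64 * N / (V * L ^ 2)) + 1) =
        V * Real.log (64 * N / (V * L ^ 2)) + V := by ring
      linarith
    exact le_of_mul_le_mul_left h5 hV
  have hexp : Real.log (64 * N / (V * L ^ 2)) =
      Real.log 64 + L - Real.log V - 2 * Real.log L := by
    rw [Real.log_div (by positivity) (by positivity), Real.log_mul (by norm_num) (by positivity),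
      Real.log_mul (by positivity) (by positivity), Real.log_pow, hLL]
    push_cast
    ring
  have hlV : Real.log V ≤ 0 := Real.log_nonpos hV.le (by linarith)
  have hlL : Real.log L ≤ L / 4 - 1 + Real.log 4 := by
    have h6 := Real.log_le_sub_one_of_pos (show 0 < L / 4 by positivity)
    rw [Real.log_div (by positivity) (by norm_num)] at h6
    linarith
  have h64 : Real.log 64 = 3 * Real.log 4 := by
    rw [show (64 : ℝ) = 4 ^ 3 by norm_num, Real.log_pow]
    norm_num
  have h4 : 0 < Real.log 4 := Real.log_pos (by norm_num)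
  linarith

end Pool.Agent.DZ17
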