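import Pool.Agent.DZ17.Two
import Pool.Agent.DZ17.Ins

/-! LS: weak log-Sobolev inequality. Induction on Y (Finset.induction_on, for all f).
Y empty: ex {} g = g {}, both sides 0. insert a Y, f0 = f, f1 = f o insert a, P0 = ex Y f0^2,
P1 = ex Y f1^2: by ex_insert the left side is (Ent f0 + Ent f1)/2 + (P0 log P0 + P1 log P1)/2 -
(P0+P1)/2 log((P0+P1)/2) <= (en Y f0 + en Y f1)/2 + (sqrt P0 - sqrt P1)^2 (two with a = sqrt P0,
b = sqrt P1) <= (en Y f0 + en Y f1)/2 + ex Y (f0 - f1)^2 (mink) = en (insert a Y) f (en_insert). -/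

namespace Pool.Agent.DZ17

theorem LS_nonneg (Y : Finset ℕ) (f : Finset ℕ → ℝ) : 0 ≤ ex Y (fun S => f S ^ 2) := by
  unfold ex
  exact div_nonneg (Finset.sum_nonneg fun S _ => sq_nonneg _) (by positivity)

theorem logsob (Y : Finset ℕ) (f : Finset ℕ → ℝ) :
    ex Y (fun S => f S ^ 2 * Real.log (f S ^ 2)) -
      ex Y (fun S => f S ^ 2) * Real.log (ex Y (fun S => f S ^ 2)) ≤ en Y f := by
  induction Y using Finset.induction_on generalizing f with
  | empty =>
    simp [ex, en]
  | insert a Y ha ih =>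
    have h0 := ih f
    have h1 := ih (fun S => f (insert a S))
    have hP0 := LS_nonneg Y f
    have hP1 := LS_nonneg Y (fun S => f (insert a S))
    have hm := mink Y f (fun S => f (insert a S))
    have ht := two (Real.sqrt (ex Y (fun S => f S ^ 2)))
      (Real.sqrt (ex Y (fun S => f (insert a S) ^ 2))) (Real.sqrt_nonneg _) (Real.sqrt_nonneg _)
    rw [Real.sq_sqrt hP0, Real.sq_sqrt hP1] at ht
    rw [ex_insert ha, ex_insert ha, en_insert ha]
    linarith

end Pool.Agent.DZ17
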