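import Pool.Agent.DZ17.LS

/-! Low. P = ex d^2, w = ex |d|. If P = 0 the left side is - t w^2 <= 0 <= en. If P > 0 then w > 0.
(1) for every S with d = d S nonzero: log(P/(w |d|)) <= P/(w |d|) - 1, times d^2:
d^2 log(P/(w|d|)) <= |d| P/w - d^2 (true for d = 0 too, both sides 0). Mean value: right side
P - P = 0, so ex (d^2 log |d|) >= P log(P/w), ex (d^2 log d^2) >= 2 P log(P/w).
(2) with logsob: en >= 2 P log(P/w) - P log P = P log(P/w^2).
(3) log(t w^2/P) <= t w^2/P - 1 gives P log t + P - t w^2 <= P log(P/w^2). -/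

namespace Pool.Agent.DZ17

theorem low (Y : Finset ℕ) (d : Finset ℕ → ℝ) (t : ℝ) (ht : 0 < t) :
    ex Y (fun S => d S ^ 2) * Real.log t + ex Y (fun S => d S ^ 2) -
      t * ex Y (fun S => |d S|) ^ 2 ≤ en Y d := by
  have hP0 : 0 ≤ ex Y (fun S => d S ^ 2) := ex_nonneg Y fun S _ => sq_nonneg _
  have hw0 : 0 ≤ ex Y (fun S => |d S|) := ex_nonneg Y fun S _ => abs_nonneg _
  have hLS := logsob Y d
  have hEN := en_nonneg Y d
  have hPw : ex Y (fun S => |d S|) = 0 → ex Y (fun S => d S ^ 2) = 0 := by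
    intro h
    unfold ex at h ⊢
    rw [div_eq_zero_iff] at h
    rcases h with h | h
    · rw [Finset.sum_eq_zero_iff_of_nonneg (fun S _ => abs_nonneg _)] at h
      rw [Finset.sum_eq_zero, zero_div]
      intro S hS
      have h1 := abs_eq_zero.1 (h S hS)
      rw [h1]
      norm_num
    · exact absurd h (by positivity)
  have hpt : ∀ P w : ℝ, 0 < P → 0 < w → ∀ S, S ⊆ Y →
      Real.log (P / w) * d S ^ 2 + (1 * d S ^ 2) ≤
        P / w * |d S| + (1 / 2) * (d S ^ 2 * Real.log (d S ^ 2)) := by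
    intro P w hP hw S _
    rcases eq_or_ne (d S) 0 with h | h
    · rw [h]
      norm_num
    · have hx : 0 < |d S| := abs_pos.2 h
      have h1 : Real.log (d S ^ 2) = 2 * Real.log |d S| := by
        rw [Real.log_pow, Real.log_abs]
        norm_num
      have h2 : d S ^ 2 = |d S| ^ 2 := (sq_abs _).symm
      rw [h1, h2]
      set x := |d S| with hxdef
      have h3 : Real.log (P / w / x) ≤ P / w / x - 1 := Real.log_le_sub_one_of_pos (by positivity)
      rw [Real.log_div (by positivity) (by positivity)] at h3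
      have h4 := mul_le_mul_of_nonneg_right h3 (sq_nonneg x)
      have h5 : (P / w / x - 1) * x ^ 2 = P / w * x - x ^ 2 := by
        field_simp
      rw [h5] at h4
      linarith
  set P := ex Y (fun S => d S ^ 2) with hPdef
  set w := ex Y (fun S => |d S|) with hwdef
  rcases hP0.eq_or_lt with hP | hP
  · rw [← hP]
    have : 0 ≤ t * w ^ 2 := by positivity
    linarith
  have hw : 0 < w := lt_of_le_of_ne hw0 (fun h => hP.ne' (hPw h.symm))
  have h1 := ex_mono Y (hpt P w hP hw)
  rw [ex_add, ex_add, ex_mul, ex_mul, ex_mul, ex_mul, ← hPdef, ← hwdef] at h1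
  have h2 : P / w * w = P := by field_simp
  rw [h2] at h1
  have h3 : Real.log (P / w) = Real.log P - Real.log w := Real.log_div hP.ne' hw.ne'
  rw [h3] at h1
  have h4 : Real.log (t * w ^ 2 / P) ≤ t * w ^ 2 / P - 1 :=
    Real.log_le_sub_one_of_pos (by positivity)
  rw [Real.log_div (by positivity) hP.ne', Real.log_mul ht.ne' (by positivity), Real.log_pow] at h4
  have h5 := mul_le_mul_of_nonneg_right h4 hP.le
  have h6 : (t * w ^ 2 / P - 1) * P = t * w ^ 2 - P := by field_simp
  rw [h6] at h5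
  push_cast at h5
  nlinarith

end Pool.Agent.DZ17
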