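import Pool.Agent.DZ17.Greedy
import Pool.Agent.DZ17.Comb
import Pool.Agent.DZ17.AvgB
import Pool.Agent.DZ17.Red

/-! MainS66 (helper66): `main` of Main, with `tail` as a hypothesis. -/

set_option autoImplicit false

namespace Pool.Agent.DZ17.S66

open Classical in
/-- the case `card X ≤ 2 k` -/
theorem main_small (k : ℕ) (F : Set (Finset ℕ)) (hk2 : 2 ≤ k) (hk : ∀ A ∈ F, A.card = k)
    (tl : ∀ W : Finset ℕ, (∀ D1 ∈ F, ∀ D2 ∈ F, ∀ D3 ∈ F, (∀ x ∈ D1, x ∉ W) → (∀ x ∈ D2, x ∉ W) →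
      (∀ x ∈ D3, x ∉ W) → ∃ x, x ∈ D1 ∧ x ∈ D2 ∧ x ∈ D3) →
      ∃ T : Finset ℕ, 2 * T.card ≤ 2 * W.card + k + 1 ∧ ∀ A ∈ F, ∃ t ∈ T, t ∈ A)
    (hF : ∀ G : Finset (Finset ℕ), (↑G : Set (Finset ℕ)) ⊆ F → G.card ≤ 7 →
      ∃ x y : ℕ, ∀ A ∈ G, x ∈ A ∨ y ∈ A)
    (X : Finset ℕ) (δ : ℝ) (hδ : 0 < δ) (hX : 3 * k ≤ 2 * X.card) (hX2 : X.card ≤ 2 * k)
    (hd : δ * (X.card.choose k : ℝ) ≤ (((X.powersetCard k).filter (fun A => A ∈ F)).card : ℝ)) :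
    ∃ T : Finset ℕ, (T.card : ℝ) ≤
        (5 * k / 2 - X.card) + 96 * k / (δ * Real.log k) + 3 / 2 ∧
      ∀ A ∈ F, ∃ t ∈ T, t ∈ A := by
  obtain ⟨H, hHX, hHc, hmu⟩ := exH (fun A => A ∈ F) X k δ (by omega) hX2 hd
  set Y := X \ H with hY
  have hYc : Y.card = 2 * X.card - 2 * k := by
    rw [hY, Finset.card_sdiff_of_subset hHX, hHc]
    omega
  have hY2 : 2 ≤ Y.card := by omega
  obtain ⟨Z, -, hZc, hZ⟩ := greedy Y (fun S => ∃ A ⊆ H ∪ S, A.card = k ∧ A ∈ F)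
    (fun S T hST ⟨A, hA, h1⟩ => ⟨A, hA.trans (Finset.union_subset_union_right hST), h1⟩) hY2
    (δ / 2) (by positivity) hmu
  have hfun : (fun S => ∃ A ⊆ H ∪ (S ∪ Z), A.card = k ∧ A ∈ F) =
      (fun S => ∃ A ∈ F, A ⊆ H ∪ (S ∪ Z)) := by
    funext S
    refine propext ⟨fun ⟨A, h1, _, h3⟩ => ⟨A, h3, h1⟩, fun ⟨A, h1, h2⟩ => ⟨A, h2, hk A h1, h1⟩⟩
  have hZ' : 3 / 4 < mu Y (fun S => ∃ A ∈ F, A ⊆ H ∪ (S ∪ Z)) := by
    rw [← hfun]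
    exact hZ
  obtain ⟨T, hT, hT2⟩ := tl (H ∪ Z) fun D1 m1 D2 m2 D3 m3 d1 d2 d3 =>
    comb F hF Y H Z hZ' D1 D2 D3 m1 m2 m3 d1 d2 d3
  refine ⟨T, ?_, hT2⟩
  have hW : (H ∪ Z).card ≤ (2 * k - X.card) + Z.card := by
    rw [← hHc]
    exact Finset.card_union_le _ _
  have h1 : (T.card : ℝ) ≤ (2 * k - X.card) + Z.card + (k + 1) / 2 := by
    have h2 : 2 * T.card ≤ 2 * ((2 * k - X.card) + Z.card) + k + 1 := by omega
    have h3 : (2 * T.card : ℝ) ≤ 2 * (((2 * k - X.card : ℕ) : ℝ) + Z.card) + k + 1 := by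
      exact_mod_cast h2
    rw [Nat.cast_sub hX2] at h3
    push_cast at h3
    linarith
  have hkR : (2 : ℝ) ≤ k := by exact_mod_cast hk2
  have hlogk : 0 < Real.log k := Real.log_pos (by linarith)
  have hYk : (k : ℝ) ≤ Y.card := by
    have : k ≤ Y.card := by omega
    exact_mod_cast this
  have hYk2 : (Y.card : ℝ) ≤ 2 * k := by
    have : Y.card ≤ 2 * k := by omega
    exact_mod_cast this
  have hlog : Real.log k ≤ Real.log Y.card := Real.log_le_log (by linarith) hYk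
  have h4 : 24 * (Y.card : ℝ) / (δ / 2 * Real.log Y.card) ≤ 96 * k / (δ * Real.log k) := by
    have e1 : 24 * (Y.card : ℝ) / (δ / 2 * Real.log Y.card) =
        48 * (Y.card : ℝ) / (δ * Real.log Y.card) := by
      have : 0 < Real.log Y.card := hlogk.trans_le hlog
      field_simp
      ring
    rw [e1]
    refine div_le_div₀ (by positivity) (by linarith) (by positivity) ?_
    exact mul_le_mul_of_nonneg_left hlog hδ.le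
  linarith

theorem main66 (k : ℕ) (F : Set (Finset ℕ)) (hk2 : 2 ≤ k) (hk : ∀ A ∈ F, A.card = k)
    (tl : ∀ W : Finset ℕ, (∀ D1 ∈ F, ∀ D2 ∈ F, ∀ D3 ∈ F, (∀ x ∈ D1, x ∉ W) → (∀ x ∈ D2, x ∉ W) →
      (∀ x ∈ D3, x ∉ W) → ∃ x, x ∈ D1 ∧ x ∈ D2 ∧ x ∈ D3) →
      ∃ T : Finset ℕ, 2 * T.card ≤ 2 * W.card + k + 1 ∧ ∀ A ∈ F, ∃ t ∈ T, t ∈ A)
    (hF : ∀ G : Finset (Finset ℕ), (↑G : Set (Finset ℕ)) ⊆ F → G.card ≤ 7 →
      ∃ x y : ℕ, ∀ A ∈ G, x ∈ A ∨ y ∈ A)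
    (X : Finset ℕ) (δ : ℝ) (hδ : 0 < δ) (hX : 3 * k ≤ 2 * X.card)
    (hd : δ * (X.card.choose k : ℝ) ≤ ({A : Finset ℕ | A ⊆ X ∧ A ∈ F}.ncard : ℝ)) :
    ∃ T : Finset ℕ, (T.card : ℝ) ≤
        max ((k : ℝ) / 2) (5 * k / 2 - X.card) + 96 * k / (δ * Real.log k) + 3 / 2 ∧
      ∀ A ∈ F, ∃ t ∈ T, t ∈ A := by
  classical
  have hset : {A : Finset ℕ | A ⊆ X ∧ A ∈ F} =
      ((X.powersetCard k).filter (fun A => A ∈ F) : Finset (Finset ℕ)) := by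
    ext A
    rw [Finset.coe_filter]
    constructor
    · rintro ⟨h1, h2⟩
      exact ⟨Finset.mem_powersetCard.2 ⟨h1, hk A h2⟩, h2⟩
    · rintro ⟨h1, h2⟩
      exact ⟨(Finset.mem_powersetCard.1 h1).1, h2⟩
  rw [hset, Set.ncard_coe_finset] at hd
  by_cases hX2 : X.card ≤ 2 * k
  · obtain ⟨T, h1, h2⟩ := main_small k F hk2 hk tl hF X δ hδ hX hX2 (by convert! hd)
    refine ⟨T, h1.trans ?_, h2⟩
    have := le_max_right ((k : ℝ) / 2) (5 * k / 2 - X.card)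
    linarith
  · obtain ⟨X', -, hc, hd'⟩ := red (fun A => A ∈ F) X k δ (by omega) (by convert! hd)
    rw [← hc] at hd'
    obtain ⟨T, h1, h2⟩ := main_small k F hk2 hk tl hF X' δ hδ (by omega) (by omega) hd'
    refine ⟨T, h1.trans ?_, h2⟩
    have h3 := le_max_left ((k : ℝ) / 2) (5 * k / 2 - X.card)
    rw [hc]
    push_cast
    linarith

end Pool.Agent.DZ17.S66
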