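import Pool.Agent.DZ17.Def

/-! MartA. Everything from ex_fl (i in Y): ex Y (g o fl i) = ex Y g.
ex_av: immediate. sq_av: f = av f + (f - av f), av f = (f + f')/2, f - av f = (f - f')/2,
(f' = f o fl i): ex f^2 = (ex f^2 + ex f'^2)/2 = ex ((f+f')/2)^2 + ex ((f-f')/2)^2.
en_av: for every j in Y apply the same identity to g = f - f o fl j (av i g = av i f - (av i f) o fl j
by fl_comm). inf_av: |av f - (av f) o fl j| <= (|g| + |g o fl i|)/2 with g = f - f o fl j.
abs_av: |f - av f| = |f - f'|/2. av_fl: av i f is invariant under fl i; av_inv: if f is invariant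
under fl j, so is av i f. -/

namespace Pool.Agent.DZ17

theorem ex_av {Y : Finset ℕ} {i : ℕ} (hi : i ∈ Y) (f : Finset ℕ → ℝ) :
    ex Y (av i f) = ex Y f := by
  have h : av i f = fun S => (1 / 2) * f S + (1 / 2) * f (fl i S) := by
    funext S
    unfold av
    ring
  rw [h, ex_add Y (fun S => (1 / 2) * f S) (fun S => (1 / 2) * f (fl i S)), ex_mul,
    ex_mul Y (1 / 2) (fun S => f (fl i S)), ex_fl hi]
  ring

theorem sq_av {Y : Finset ℕ} {i : ℕ} (hi : i ∈ Y) (f : Finset ℕ → ℝ) :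
    ex Y (fun S => f S ^ 2) =
      ex Y (fun S => av i f S ^ 2) + ex Y (fun S => (f S - av i f S) ^ 2) := by
  rw [← ex_add]
  have h : (fun S => av i f S ^ 2 + (f S - av i f S) ^ 2) =
      fun S => (1 / 2) * f S ^ 2 + (1 / 2) * f (fl i S) ^ 2 := by
    funext S
    unfold av
    ring
  rw [h, ex_add Y (fun S => (1 / 2) * f S ^ 2) (fun S => (1 / 2) * f (fl i S) ^ 2),
    ex_mul Y (1 / 2) (fun S => f S ^ 2), ex_mul Y (1 / 2) (fun S => f (fl i S) ^ 2),
    ex_fl hi (fun S => f S ^ 2)]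
  ring

lemma martA_av (i j : ℕ) (f : Finset ℕ → ℝ) (S : Finset ℕ) :
    av i (fun S => f S - f (fl j S)) S = av i f S - av i f (fl j S) := by
  unfold av
  rw [fl_comm i j S]
  ring

theorem en_av {Y : Finset ℕ} {i : ℕ} (hi : i ∈ Y) (f : Finset ℕ → ℝ) :
    en Y f = en Y (av i f) + en Y (fun S => f S - av i f S) := by
  unfold en
  rw [← Finset.sum_add_distrib]
  apply Finset.sum_congr rfl
  intro j _
  rw [sq_av hi (fun S => f S - f (fl j S))]
  congr 2
  · funext S
    rw [martA_av]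
  · funext S
    rw [martA_av]
    ring

theorem inf_av {Y : Finset ℕ} {i : ℕ} (hi : i ∈ Y) (j : ℕ) (f : Finset ℕ → ℝ) :
    inf Y j (av i f) ≤ inf Y j f := by
  unfold inf
  have h1 : ex Y (fun S => |av i f S - av i f (fl j S)|) ≤
      ex Y (fun S => (1 / 2) * |f S - f (fl j S)| +
        (1 / 2) * |f (fl i S) - f (fl j (fl i S))|) := by
    apply ex_mono
    intro S _
    rw [← martA_av]
    have h2 : av i (fun S => f S - f (fl j S)) S =
        (1 / 2) * (f S - f (fl j S)) + (1 / 2) * (f (fl i S) - f (fl j (fl i S))) := by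
      unfold av
      ring
    rw [h2]
    refine (abs_add_le _ _).trans (le_of_eq ?_)
    rw [abs_mul, abs_mul, abs_of_pos (show (0 : ℝ) < 1 / 2 by norm_num)]
  refine h1.trans (le_of_eq ?_)
  rw [ex_add Y (fun S => (1 / 2) * |f S - f (fl j S)|)
    (fun S => (1 / 2) * |f (fl i S) - f (fl j (fl i S))|),
    ex_mul Y (1 / 2) (fun S => |f S - f (fl j S)|),
    ex_mul Y (1 / 2) (fun S => |f (fl i S) - f (fl j (fl i S))|),
    ex_fl hi (fun S => |f S - f (fl j S)|)]
  ring

theorem abs_av (Y : Finset ℕ) (i : ℕ) (f : Finset ℕ → ℝ) :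
    ex Y (fun S => |f S - av i f S|) = inf Y i f / 2 := by
  unfold inf
  have h : (fun S => |f S - av i f S|) = fun S => (1 / 2) * |f S - f (fl i S)| := by
    funext S
    have h2 : f S - av i f S = (1 / 2) * (f S - f (fl i S)) := by
      unfold av
      ring
    rw [h2, abs_mul, abs_of_pos (show (0 : ℝ) < 1 / 2 by norm_num)]
  rw [h, ex_mul]
  ring

theorem av_fl (i : ℕ) (f : Finset ℕ → ℝ) (S : Finset ℕ) : av i f (fl i S) = av i f S := by
  unfold av
  rw [fl_fl, add_comm]

theorem av_inv (i j : ℕ) (f : Finset ℕ → ℝ) (h : ∀ S, f (fl j S) = f S) (S : Finset ℕ) :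
    av i f (fl j S) = av i f S := by
  unfold av
  rw [fl_comm i j S, h, h]

end Pool.Agent.DZ17
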