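import Pool.Agent.DZ17.Low
import Pool.Agent.DZ17.MartA

/-! Mart. Claim for s subset of Y (Finset.induction_on s): there is h with h o fl i = h for i in s,
ex h = ex f, inf Y j h <= inf Y j f for all j, and
(ex f^2 - ex h^2)(log t + 1) - t sum_(i in s) (inf Y i f / 2)^2 <= en f - en h.
Step: h' = av i h, d = h - h': low for d (ex |d| = inf Y i h / 2 <= inf Y i f / 2), sq_av, en_av.
For s = Y: h is constant on the powerset of Y (h S = h {} by induction on S, S + i = fl i S), so
ex h^2 = (ex h)^2 = (ex f)^2; and en h >= 0. -/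

namespace Pool.Agent.DZ17

theorem mart_ex_congr (Y : Finset ℕ) {f g : Finset ℕ → ℝ} (h : ∀ S, S ⊆ Y → f S = g S) :
    ex Y f = ex Y g :=
  le_antisymm (ex_mono Y fun S hS => (h S hS).le) (ex_mono Y fun S hS => (h S hS).ge)

theorem mart_claim (Y : Finset ℕ) (f : Finset ℕ → ℝ) (t : ℝ) (ht : 0 < t) (s : Finset ℕ) :
    s ⊆ Y → ∃ h : Finset ℕ → ℝ, (∀ i ∈ s, ∀ S, h (fl i S) = h S) ∧ ex Y h = ex Y f ∧
      (∀ j, inf Y j h ≤ inf Y j f) ∧
      (ex Y (fun S => f S ^ 2) - ex Y (fun S => h S ^ 2)) * (Real.log t + 1) -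
        t * ∑ i ∈ s, (inf Y i f / 2) ^ 2 ≤ en Y f - en Y h := by
  induction s using Finset.induction_on with
  | empty =>
    intro _
    refine ⟨f, fun i hi => absurd hi (Finset.notMem_empty i), rfl, fun _ => le_refl _, ?_⟩
    rw [Finset.sum_empty]
    simp
  | insert i s his ih =>
    intro hsub
    have hiY : i ∈ Y := hsub (Finset.mem_insert_self i s)
    obtain ⟨h, h1, h2, h3, h4⟩ := ih fun x hx => hsub (Finset.mem_insert_of_mem hx)
    refine ⟨av i h, ?_, ?_, ?_, ?_⟩
    · intro j hj S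
      rw [Finset.mem_insert] at hj
      rcases hj with rfl | hj
      · exact av_fl j h S
      · exact av_inv i j h (h1 j hj) S
    · rw [ex_av hiY, h2]
    · intro j
      exact (inf_av hiY j h).trans (h3 j)
    · have hlow := low Y (fun S => h S - av i h S) t ht
      have hsq := sq_av hiY h
      have hen := en_av hiY h
      have habs := abs_av Y i h
      rw [habs] at hlow
      have hi0 : 0 ≤ inf Y i h := ex_nonneg Y fun S _ => abs_nonneg _
      have hle : (inf Y i h / 2) ^ 2 ≤ (inf Y i f / 2) ^ 2 := by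
        apply pow_le_pow_left₀ (by linarith)
        have := h3 i
        linarith
      have hle2 : t * (inf Y i h / 2) ^ 2 ≤ t * (inf Y i f / 2) ^ 2 :=
        mul_le_mul_of_nonneg_left hle ht.le
      rw [Finset.sum_insert his, mul_add]
      rw [hsq] at h4
      rw [hen] at h4
      nlinarith [h4, hlow, hle2]

theorem mart_const {Y : Finset ℕ} {h : Finset ℕ → ℝ} (hh : ∀ i ∈ Y, ∀ S, h (fl i S) = h S)
    (S : Finset ℕ) : S ⊆ Y → h S = h ∅ := by
  induction S using Finset.induction_on with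
  | empty => intro _; rfl
  | insert i S hi ih =>
    intro hsub
    have hiY : i ∈ Y := hsub (Finset.mem_insert_self i S)
    have h1 : fl i S = insert i S := by
      unfold fl
      ext x
      rw [Finset.mem_symmDiff, Finset.mem_singleton, Finset.mem_insert]
      constructor
      · rintro (⟨h, -⟩ | ⟨h, -⟩)
        · exact Or.inr h
        · exact Or.inl h
      · rintro (h | h)
        · exact Or.inr ⟨h, by rw [h]; exact hi⟩
        · exact Or.inl ⟨h, fun h' => hi (by rw [← h']; exact h)⟩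
    rw [← h1, hh i hiY]
    exact ih fun x hx => hsub (Finset.mem_insert_of_mem hx)

theorem mart (Y : Finset ℕ) (f : Finset ℕ → ℝ) (t : ℝ) (ht : 0 < t) :
    (ex Y (fun S => f S ^ 2) - ex Y f ^ 2) * (Real.log t + 1) -
      t * ∑ i ∈ Y, (inf Y i f / 2) ^ 2 ≤ en Y f := by
  obtain ⟨h, h1, h2, -, h4⟩ := mart_claim Y f t ht Y (Finset.Subset.refl Y)
  have e1 : ex Y h = h ∅ := by
    rw [mart_ex_congr Y (fun S hS => mart_const h1 S hS), ex_const]
  have e2 : ex Y (fun S => h S ^ 2) = h ∅ ^ 2 := by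
    rw [mart_ex_congr Y (f := fun S => h S ^ 2) (g := fun _ => h ∅ ^ 2)
      (fun S hS => by rw [mart_const h1 S hS]), ex_const]
  have e3 : ex Y (fun S => h S ^ 2) = ex Y f ^ 2 := by
    rw [e2, ← e1, h2]
  rw [e3] at h4
  have h5 := en_nonneg Y h
  linarith

end Pool.Agent.DZ17
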