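import Pool.Agent.DZ17.Low
import Pool.Agent.DZ17.MartA

/-! DZ17, Mart: the averaging argument. -/

namespace Pool.Agent.DZ17.S78

open Pool.Agent.DZ17

theorem insert_eq_fl {i : ℕ} {S : Finset ℕ} (hi : i ∉ S) : insert i S = fl i S := by
  unfold fl
  ext x
  rw [Finset.mem_symmDiff, Finset.mem_insert, Finset.mem_singleton]
  constructor
  · rintro (h | h)
    · exact Or.inr ⟨h, fun h' => hi (h ▸ h')⟩
    · exact Or.inl ⟨h, fun h' => hi (h' ▸ h)⟩
  · rintro (⟨h, -⟩ | ⟨h, -⟩)
    · exact Or.inr h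
    · exact Or.inl h

theorem inf_nonneg (Y : Finset ℕ) (i : ℕ) (f : Finset ℕ → ℝ) : 0 ≤ inf Y i f :=
  ex_nonneg Y fun _ _ => abs_nonneg _

theorem claim (Y : Finset ℕ) (f : Finset ℕ → ℝ) (t : ℝ) (ht : 0 < t) (s : Finset ℕ) :
    s ⊆ Y → ∃ h : Finset ℕ → ℝ, (∀ i ∈ s, ∀ S, h (fl i S) = h S) ∧ ex Y h = ex Y f ∧
      (∀ j, inf Y j h ≤ inf Y j f) ∧
      (ex Y (fun S => f S ^ 2) - ex Y (fun S => h S ^ 2)) * (Real.log t + 1) -
        t * ∑ i ∈ s, (inf Y i f / 2) ^ 2 ≤ en Y f - en Y h := by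
  induction s using Finset.induction_on with
  | empty =>
    intro _
    exact ⟨f, by simp, rfl, fun j => le_rfl, by simp⟩
  | insert i s his ih =>
    intro hs
    have hiY : i ∈ Y := hs (Finset.mem_insert_self i s)
    obtain ⟨h, h1, h2, h3, h4⟩ := ih fun x hx => hs (Finset.mem_insert_of_mem hx)
    refine ⟨av i h, ?_, ?_, ?_, ?_⟩
    · intro j hj S
      rcases Finset.mem_insert.1 hj with rfl | hj
      · exact av_fl j h S
      · exact av_inv i j h (h1 j hj) S
    · rw [ex_av hiY, h2]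
    · exact fun j => (inf_av hiY j h).trans (h3 j)
    · have k1 := low Y (fun S => h S - av i h S) t ht
      have k2 := sq_av hiY h
      have k3 := en_av hiY h
      have k4 := abs_av Y i h
      rw [k4] at k1
      rw [Finset.sum_insert his]
      have k5 : (inf Y i h / 2) ^ 2 ≤ (inf Y i f / 2) ^ 2 := by
        have k6 := inf_nonneg Y i h
        exact pow_le_pow_left₀ (by linarith) (by linarith [h3 i]) 2
      have k7 : t * (inf Y i h / 2) ^ 2 ≤ t * (inf Y i f / 2) ^ 2 :=
        mul_le_mul_of_nonneg_left k5 ht.le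
      have k8 : (ex Y (fun S => f S ^ 2) - ex Y (fun S => av i h S ^ 2)) * (Real.log t + 1)
          = (ex Y (fun S => f S ^ 2) - ex Y (fun S => h S ^ 2)) * (Real.log t + 1) +
            (ex Y (fun S => (h S - av i h S) ^ 2) * Real.log t +
              ex Y (fun S => (h S - av i h S) ^ 2)) := by
        rw [k2]
        ring
      rw [k8, mul_add t]
      linarith

theorem mart (Y : Finset ℕ) (f : Finset ℕ → ℝ) (t : ℝ) (ht : 0 < t) :
    (ex Y (fun S => f S ^ 2) - ex Y f ^ 2) * (Real.log t + 1) -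
      t * ∑ i ∈ Y, (inf Y i f / 2) ^ 2 ≤ en Y f := by
  obtain ⟨h, h1, h2, h3, h4⟩ := claim Y f t ht Y (fun _ h => h)
  have hc : ∀ S : Finset ℕ, S ⊆ Y → h S = h ∅ := by
    intro S
    induction S using Finset.induction_on with
    | empty => exact fun _ => rfl
    | insert i S hiS ih =>
      intro hS
      rw [insert_eq_fl hiS, h1 i (hS (Finset.mem_insert_self i S))]
      exact ih fun x hx => hS (Finset.mem_insert_of_mem hx)
  have e1 : ex Y h = h ∅ := by
    rw [← ex_const Y (h ∅)]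
    exact le_antisymm (ex_mono Y fun S hS => (hc S hS).le) (ex_mono Y fun S hS => (hc S hS).ge)
  have e2 : ex Y (fun S => h S ^ 2) = h ∅ ^ 2 := by
    rw [← ex_const Y (h ∅ ^ 2)]
    exact le_antisymm (ex_mono Y fun S hS => by rw [hc S hS])
      (ex_mono Y fun S hS => by rw [hc S hS])
  have e3 := en_nonneg Y h
  rw [e2, ← e1, h2] at h4
  linarith

end Pool.Agent.DZ17.S78
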