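import Pool.Agent.DZ17.Def

/-! Two. two: m = (a^2+b^2)/2. If m = 0 both sides are 0. Else log x <= x - 1 with x = a^2/m, b^2/m:
LHS = (a^2 log(a^2/m) + b^2 log(b^2/m))/2 <= (a^4+b^4)/(2m) - m = (a^2-b^2)^2/(4m)
= (a-b)^2 (a+b)^2/(4m) and (a+b)^2 <= 2(a^2+b^2) = 4m. (If a = 0 then a^2 log a^2 = 0 in Lean.)
mink: (sqrt P - sqrt Q)^2 = P + Q - 2 sqrt P sqrt Q, and ex (f g) <= sqrt P sqrt Q by Cauchy-Schwarz
(Finset.sum_mul_sq_le_sq_mul_sq). -/

namespace Pool.Agent.DZ17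

/-- `x log x ≤ x log m + x (x - m) / m` for `x ≥ 0`, `m > 0` -/
theorem two_aux (x m : ℝ) (hx : 0 ≤ x) (hm : 0 < m) :
    x * Real.log x ≤ x * Real.log m + x * (x / m - 1) := by
  rcases eq_or_lt_of_le hx with h | h
  · rw [← h]
    simp
  · have h1 : Real.log (x / m) ≤ x / m - 1 := Real.log_le_sub_one_of_pos (div_pos h hm)
    rw [Real.log_div h.ne' hm.ne'] at h1
    have h2 := mul_le_mul_of_nonneg_left h1 hx
    linarith

theorem two (a b : ℝ) (ha : 0 ≤ a) (hb : 0 ≤ b) :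
    (a ^ 2 * Real.log (a ^ 2) + b ^ 2 * Real.log (b ^ 2)) / 2 -
      (a ^ 2 + b ^ 2) / 2 * Real.log ((a ^ 2 + b ^ 2) / 2) ≤ (a - b) ^ 2 := by
  have hm0 : 0 ≤ (a ^ 2 + b ^ 2) / 2 := by positivity
  rcases eq_or_lt_of_le hm0 with h | h
  · have h1 : a ^ 2 = 0 := by nlinarith [sq_nonneg a, sq_nonneg b]
    have h2 : b ^ 2 = 0 := by nlinarith [sq_nonneg a, sq_nonneg b]
    rw [h1, h2]
    simp
    positivity
  · set m := (a ^ 2 + b ^ 2) / 2 with hm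
    have h1 := two_aux (a ^ 2) m (sq_nonneg a) h
    have h2 := two_aux (b ^ 2) m (sq_nonneg b) h
    have h3 : a ^ 2 + b ^ 2 = 2 * m := by rw [hm]; ring
    have h4 : (a ^ 2 * (a ^ 2 / m - 1) + b ^ 2 * (b ^ 2 / m - 1)) / 2 ≤ (a - b) ^ 2 := by
      have h5 : (a ^ 2 * (a ^ 2 / m - 1) + b ^ 2 * (b ^ 2 / m - 1)) / 2 =
          (a - b) ^ 2 * ((a + b) ^ 2 / (4 * m)) := by
        have hb2 : b ^ 2 = 2 * m - a ^ 2 := by linarith
        have e1 : (a - b) ^ 2 * ((a + b) ^ 2 / (4 * m)) = (a ^ 2 - b ^ 2) ^ 2 / (4 * m) := by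
          ring
        rw [e1, hb2]
        field_simp
        ring
      rw [h5]
      have h6 : (a + b) ^ 2 / (4 * m) ≤ 1 := by
        rw [div_le_one (by positivity)]
        nlinarith [sq_nonneg (a - b)]
      calc (a - b) ^ 2 * ((a + b) ^ 2 / (4 * m)) ≤ (a - b) ^ 2 * 1 :=
            mul_le_mul_of_nonneg_left h6 (sq_nonneg _)
        _ = (a - b) ^ 2 := mul_one _
    have h7 : m * Real.log m = (a ^ 2 * Real.log m + b ^ 2 * Real.log m) / 2 := by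
      rw [← add_mul, h3]
      ring
    linarith

theorem mink_cs (Y : Finset ℕ) (f g : Finset ℕ → ℝ) :
    ex Y (fun S => f S * g S) ≤
      Real.sqrt (ex Y (fun S => f S ^ 2)) * Real.sqrt (ex Y (fun S => g S ^ 2)) := by
  have hP : 0 ≤ ex Y (fun S => f S ^ 2) := ex_nonneg Y fun S _ => sq_nonneg _
  have h1 : (ex Y (fun S => f S * g S)) ^ 2 ≤
      ex Y (fun S => f S ^ 2) * ex Y (fun S => g S ^ 2) := by
    unfold ex
    rw [div_pow, div_mul_div_comm, ← sq ((2 : ℝ) ^ Y.card)]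
    exact div_le_div_of_nonneg_right (Finset.sum_mul_sq_le_sq_mul_sq _ f g) (by positivity)
  rw [← Real.sqrt_mul hP]
  exact (le_abs_self _).trans (Real.abs_le_sqrt h1)

theorem mink (Y : Finset ℕ) (f g : Finset ℕ → ℝ) :
    (Real.sqrt (ex Y (fun S => f S ^ 2)) - Real.sqrt (ex Y (fun S => g S ^ 2))) ^ 2 ≤
      ex Y (fun S => (f S - g S) ^ 2) := by
  have hP : 0 ≤ ex Y (fun S => f S ^ 2) := ex_nonneg Y fun S _ => sq_nonneg _
  have hQ : 0 ≤ ex Y (fun S => g S ^ 2) := ex_nonneg Y fun S _ => sq_nonneg _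
  have h1 := mink_cs Y f g
  have h2 : ex Y (fun S => (f S - g S) ^ 2) =
      ex Y (fun S => f S ^ 2) + ex Y (fun S => g S ^ 2) - 2 * ex Y (fun S => f S * g S) := by
    have e : (fun S => (f S - g S) ^ 2) =
        fun S => (f S ^ 2 + g S ^ 2) + (-2) * (f S * g S) := by
      funext S
      ring
    rw [e, ex_add Y (fun S => f S ^ 2 + g S ^ 2) (fun S => (-2) * (f S * g S)),
      ex_add Y (fun S => f S ^ 2) (fun S => g S ^ 2), ex_mul Y (-2) (fun S => f S * g S)]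
    ring
  have h3 : (Real.sqrt (ex Y (fun S => f S ^ 2)) - Real.sqrt (ex Y (fun S => g S ^ 2))) ^ 2 =
      ex Y (fun S => f S ^ 2) + ex Y (fun S => g S ^ 2) -
        2 * (Real.sqrt (ex Y (fun S => f S ^ 2)) * Real.sqrt (ex Y (fun S => g S ^ 2))) := by
    rw [sub_sq, Real.sq_sqrt hP, Real.sq_sqrt hQ]
    ring
  rw [h2, h3]
  linarith

end Pool.Agent.DZ17
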